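import Pool.Agent.H.MP_44257e_co.UB.Defs

/-!
# Degrees of pairs and triples (k = n + 3)

`thr3_le`: take `B ∈ thr A x y` with `z ∉ B`. Every `X ∈ thr3 A x y z` is different from `B`, so
`X ∩ B` has 3 points (`inter_three`), i.e. `x`, `y` and one point `w X` of `B \ {x, y}`; `w` is
injective, because `w X = w X'` with `X ≠ X'` gives four common points `x, y, z, w X`
(`no_four`; `w X ≠ z` as `z ∉ B`). `B \ {x, y}` has `n + 1` points.

`sum_thr3`: count the pairs `(z, X')`, `X' ∈ thr A x y`, `z ∈ X' ∩ X \ {x, y}`: `X' = X` gives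
`n + 1`, every other `X'` gives exactly one.

`thr_le`: `thr A x y` empty is clear; else take `X` in it: by `sum_thr3` and `thr3_le` (not `Sun`
gives the `B`), `card + n ≤ (n + 1) * (n + 1)`.

`exists_full`: else all `≤ n` and `card + n ≤ (n + 1) * n`.

`sun_le`: with the kernel `x, y, z`, the sets `X \ {x, y, z}`, `X ∈ thr A x y`, are pairwise
disjoint `n`-subsets of `W \ {x, y, z}` (if `thr A x y` is empty use `3 ≤ W.card`).
-/

set_option autoImplicit false

namespace MP44257e

variable {v n : ℕ} {A : Finset (Finset (Fin v))} {x y z : Fin v}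

theorem thr3_le (hA : IsFam [0, 1, 3] (n + 3) A) (hxy : x ≠ y) (hzx : z ≠ x) (hzy : z ≠ y)
    (h : ∃ B ∈ thr A x y, z ∉ B) : (thr3 A x y z).card ≤ n + 1 := by
  obtain ⟨B, hB, hzB⟩ := h
  obtain ⟨hBA, hxB, hyB⟩ := mem_thr.1 hB
  have hxy2 : ({x, y} : Finset (Fin v)).card = 2 := Finset.card_pair hxy
  have hw : ∀ X ∈ thr3 A x y z, ∃ p, p ∈ X ∧ p ∈ B ∧ p ≠ x ∧ p ≠ y := by
    intro X hX
    obtain ⟨hXA, hxX, hyX, hzX⟩ := mem_thr3.1 hX
    have hne : X ≠ B := by
      rintro rfl
      exact hzB hzX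
    have h3 := inter_three hA hXA hBA hne hxy hxX hyX hxB hyB
    have h4 : ∃ p ∈ X ∩ B, p ∉ ({x, y} : Finset (Fin v)) :=
      Finset.exists_mem_notMem_of_card_lt_card (by rw [h3, hxy2]; norm_num)
    obtain ⟨p, hp, hp'⟩ := h4
    obtain ⟨hp1, hp2⟩ := Finset.mem_inter.1 hp
    rw [Finset.mem_insert, Finset.mem_singleton, not_or] at hp'
    exact ⟨p, hp1, hp2, hp'.1, hp'.2⟩
  have hne : Nonempty (Fin v) := ⟨x⟩
  choose! w hw using hw
  have hc : (B \ {x, y}).card = n + 1 := by
    have h5 : ({x, y} : Finset (Fin v)) ⊆ B := by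
      intro a ha
      rw [Finset.mem_insert, Finset.mem_singleton] at ha
      rcases ha with rfl | rfl
      · exact hxB
      · exact hyB
    have h6 := Finset.card_sdiff_add_card_eq_card h5
    have h7 := hA.1 B hBA
    omega
  rw [← hc]
  refine Finset.card_le_card_of_injOn w ?_ ?_
  · intro X hX
    obtain ⟨-, h2, h3, h4⟩ := hw X hX
    refine Finset.mem_sdiff.2 ⟨h2, ?_⟩
    rw [Finset.mem_insert, Finset.mem_singleton, not_or]
    exact ⟨h3, h4⟩
  · intro X hX X' hX' he
    obtain ⟨h1, h2, h3, h4⟩ := hw X hX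
    obtain ⟨h1', -, -, -⟩ := hw X' hX'
    obtain ⟨hXA, hxX, hyX, hzX⟩ := mem_thr3.1 hX
    obtain ⟨hXA', hxX', hyX', hzX'⟩ := mem_thr3.1 hX'
    have he' : w X = w X' := he
    rw [← he'] at h1'
    have hz : w X ≠ z := fun h5 => hzB (h5 ▸ h2)
    refine no_four hA hXA hXA' (S := {x, y, z, w X}) ?_ ?_ ?_
    · rw [Finset.card_insert_of_notMem, Finset.card_insert_of_notMem, Finset.card_pair hz.symm]
      · rw [Finset.mem_insert, Finset.mem_singleton, not_or]
        exact ⟨hzy.symm, h4.symm⟩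
      · rw [Finset.mem_insert, Finset.mem_insert, Finset.mem_singleton, not_or, not_or]
        exact ⟨hxy, hzx.symm, h3.symm⟩
    · intro a ha
      rw [Finset.mem_insert, Finset.mem_insert, Finset.mem_insert, Finset.mem_singleton] at ha
      rcases ha with rfl | rfl | rfl | rfl
      · exact hxX
      · exact hyX
      · exact hzX
      · exact h1
    · intro a ha
      rw [Finset.mem_insert, Finset.mem_insert, Finset.mem_insert, Finset.mem_singleton] at ha
      rcases ha with rfl | rfl | rfl | rfl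
      · exact hxX'
      · exact hyX'
      · exact hzX'
      · exact h1'

end MP44257e
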