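import Pool.Agent.H.MP_44257e_co.UB.Defs

/-!
# Degrees of pairs and triples (k = n + 3)

`thr3_le`: take `B ∈ thr A x y` with `z ∉ B`. Every `X ∈ thr3 A x y z` is different from `B`, so
`X ∩ B` has 3 points (`inter_three`), i.e. `x`, `y` and one point `w X` of `B \ {x, y}`; `w` is
injective, because `w X = w X'` with `X ≠ X'` gives four common points `x, y, z, w X`
(`no_four`; `w X ≠ z` as `z ∉ B`). `B \ {x, y}` has `n + 1` points.

`sum_thr3`: count the pairs `(z, X')`, `X' ∈ thr A x y`, `z ∈ X' ∩ X \ {x, y}`: `X' = X` gives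
`n + 1`, every other `X'` gives exactly one.

`thr_le`: `thr A x y` empty is clear; else take `X` in it: by `sum_thr3` and `thr3_le` (not `Sun`
gives the `B`), `card + n ≤ (n + 1) * (n + 1)`.

`exists_full`: else all `≤ n` and `card + n ≤ (n + 1) * n`.

`sun_le`: with the kernel `x, y, z`, the sets `X \ {x, y, z}`, `X ∈ thr A x y`, are pairwise
disjoint `n`-subsets of `W \ {x, y, z}` (if `thr A x y` is empty use `3 ≤ W.card`).
-/

set_option autoImplicit false

namespace MP44257e

variable {v n : ℕ} {A : Finset (Finset (Fin v))} {x y z : Fin v}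

theorem sum_thr3 (hA : IsFam [0, 1, 3] (n + 3) A) (hxy : x ≠ y) {X : Finset (Fin v)}
    (hX : X ∈ thr A x y) :
    ∑ w ∈ (X.erase x).erase y, (thr3 A x y w).card = (thr A x y).card + n := by
  classical
  have hX' := mem_thr.1 hX
  have h1 : ∀ w, (thr3 A x y w).card = ∑ Y ∈ thr A x y, if w ∈ Y then 1 else 0 := by
    intro w
    rw [← Finset.card_filter]
    congr 1
    ext Y
    rw [Finset.mem_filter, mem_thr, mem_thr3]
    tauto
  have h2 : ∑ w ∈ (X.erase x).erase y, (thr3 A x y w).card =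
      ∑ Y ∈ thr A x y, (((X ∩ Y).erase x).erase y).card := by
    rw [Finset.sum_congr rfl fun w _ => h1 w, Finset.sum_comm]
    refine Finset.sum_congr rfl fun Y _ => ?_
    rw [← Finset.card_filter]
    congr 1
    ext w
    simp only [Finset.mem_filter, Finset.mem_erase, Finset.mem_inter]
    tauto
  have h3 : ∀ Y ∈ (thr A x y).erase X, (((X ∩ Y).erase x).erase y).card = 1 := by
    intro Y hY
    obtain ⟨hne, hY⟩ := Finset.mem_erase.1 hY
    have hY' := mem_thr.1 hY
    have h4 := inter_three hA hX'.1 hY'.1 hne.symm hxy hX'.2.1 hX'.2.2 hY'.2.1 hY'.2.2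
    rw [Finset.card_erase_of_mem, Finset.card_erase_of_mem, h4]
    · exact Finset.mem_inter.2 ⟨hX'.2.1, hY'.2.1⟩
    · exact Finset.mem_erase.2 ⟨hxy.symm, Finset.mem_inter.2 ⟨hX'.2.2, hY'.2.2⟩⟩
  have h5 : (((X ∩ X).erase x).erase y).card = n + 1 := by
    rw [Finset.inter_self, Finset.card_erase_of_mem, Finset.card_erase_of_mem, hA.1 X hX'.1]
    · omega
    · exact hX'.2.1
    · exact Finset.mem_erase.2 ⟨hxy.symm, hX'.2.2⟩
  rw [h2, ← Finset.add_sum_erase _ _ hX, h5, Finset.sum_congr rfl h3, Finset.sum_const,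
    smul_eq_mul, mul_one, Finset.card_erase_of_mem hX]
  have h6 : 0 < (thr A x y).card := Finset.card_pos.2 ⟨X, hX⟩
  omega

end MP44257e
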