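import Pool.Agent.H.MP_44257e_co.UB.B1
import Pool.Agent.H.MP_44257e_co.UB.B2

/-!
# Degrees of pairs and triples (k = n + 3)

`thr3_le`: take `B ∈ thr A x y` with `z ∉ B`. Every `X ∈ thr3 A x y z` is different from `B`, so
`X ∩ B` has 3 points (`inter_three`), i.e. `x`, `y` and one point `w X` of `B \ {x, y}`; `w` is
injective, because `w X = w X'` with `X ≠ X'` gives four common points `x, y, z, w X`
(`no_four`; `w X ≠ z` as `z ∉ B`). `B \ {x, y}` has `n + 1` points.

`sum_thr3`: count the pairs `(z, X')`, `X' ∈ thr A x y`, `z ∈ X' ∩ X \ {x, y}`: `X' = X` gives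
`n + 1`, every other `X'` gives exactly one.

`thr_le`: `thr A x y` empty is clear; else take `X` in it: by `sum_thr3` and `thr3_le` (not `Sun`
gives the `B`), `card + n ≤ (n + 1) * (n + 1)`.

`exists_full`: else all `≤ n` and `card + n ≤ (n + 1) * n`.

`sun_le`: with the kernel `x, y, z`, the sets `X \ {x, y, z}`, `X ∈ thr A x y`, are pairwise
disjoint `n`-subsets of `W \ {x, y, z}` (if `thr A x y` is empty use `3 ≤ W.card`).
-/

set_option autoImplicit false

namespace MP44257e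

variable {v n : ℕ} {A : Finset (Finset (Fin v))} {x y z : Fin v}

private theorem B3_card (hA : IsFam [0, 1, 3] (n + 3) A) (hxy : x ≠ y) {X : Finset (Fin v)}
    (hX : X ∈ thr A x y) : ((X.erase x).erase y).card = n + 1 := by
  obtain ⟨h1, h2, h3⟩ := mem_thr.1 hX
  rw [Finset.card_erase_of_mem (Finset.mem_erase.2 ⟨hxy.symm, h3⟩), Finset.card_erase_of_mem h2,
    hA.1 X h1]
  omega

private theorem B3_le (hA : IsFam [0, 1, 3] (n + 3) A) (hxy : x ≠ y) (h : ¬ Sun A x y)
    {X : Finset (Fin v)} {w : Fin v} (hw : w ∈ (X.erase x).erase y) :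
    (thr3 A x y w).card ≤ n + 1 := by
  obtain ⟨h1, h2⟩ := Finset.mem_erase.1 hw
  have h3 := (Finset.mem_erase.1 h2).1
  refine thr3_le hA hxy h3 h1 ?_
  by_contra hcon
  refine h ⟨w, h3, h1, fun B hB => ?_⟩
  by_contra hwB
  exact hcon ⟨B, hB, hwB⟩

theorem thr_le (hA : IsFam [0, 1, 3] (n + 3) A) (hxy : x ≠ y) (h : ¬ Sun A x y) :
    (thr A x y).card ≤ n ^ 2 + n + 1 := by
  rcases (thr A x y).eq_empty_or_nonempty with h0 | ⟨X, hX⟩
  · rw [h0, Finset.card_empty]
    exact Nat.zero_le _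
  · have h1 := sum_thr3 hA hxy hX
    have h2 : ∑ w ∈ (X.erase x).erase y, (thr3 A x y w).card ≤
        ((X.erase x).erase y).card • (n + 1) :=
      Finset.sum_le_card_nsmul _ _ _ fun w hw => B3_le hA hxy h hw
    rw [B3_card hA hxy hX, smul_eq_mul, h1] at h2
    have h3 : (n + 1) * (n + 1) = n ^ 2 + n + 1 + n := by ring
    omega

theorem exists_full (hA : IsFam [0, 1, 3] (n + 3) A) (hxy : x ≠ y) (h : ¬ Sun A x y)
    {X : Finset (Fin v)} (hX : X ∈ thr A x y) (hl : n ^ 2 + 1 ≤ (thr A x y).card) :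
    ∃ w ∈ (X.erase x).erase y, (thr3 A x y w).card = n + 1 := by
  by_contra hcon
  have h1 := sum_thr3 hA hxy hX
  have h2 : ∑ w ∈ (X.erase x).erase y, (thr3 A x y w).card ≤
      ((X.erase x).erase y).card • n := by
    refine Finset.sum_le_card_nsmul _ _ _ fun w hw => ?_
    have h3 := B3_le hA hxy h hw
    have h4 : (thr3 A x y w).card ≠ n + 1 := fun h5 => hcon ⟨w, hw, h5⟩
    omega
  rw [B3_card hA hxy hX, smul_eq_mul, h1] at h2
  have h3 : (n + 1) * n = n ^ 2 + n := by ring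
  omega

end MP44257e
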