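import Pool.Agent.H.MP_44257e_co.UB.Defs

/-!
# Degrees of pairs and triples (k = n + 3)

`thr3_le`: take `B ∈ thr A x y` with `z ∉ B`. Every `X ∈ thr3 A x y z` is different from `B`, so
`X ∩ B` has 3 points (`inter_three`), i.e. `x`, `y` and one point `w X` of `B \ {x, y}`; `w` is
injective, because `w X = w X'` with `X ≠ X'` gives four common points `x, y, z, w X`
(`no_four`; `w X ≠ z` as `z ∉ B`). `B \ {x, y}` has `n + 1` points.

`sum_thr3`: count the pairs `(z, X')`, `X' ∈ thr A x y`, `z ∈ X' ∩ X \ {x, y}`: `X' = X` gives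
`n + 1`, every other `X'` gives exactly one.

`thr_le`: `thr A x y` empty is clear; else take `X` in it: by `sum_thr3` and `thr3_le` (not `Sun`
gives the `B`), `card + n ≤ (n + 1) * (n + 1)`.

`exists_full`: else all `≤ n` and `card + n ≤ (n + 1) * n`.

`sun_le`: with the kernel `x, y, z`, the sets `X \ {x, y, z}`, `X ∈ thr A x y`, are pairwise
disjoint `n`-subsets of `W \ {x, y, z}` (if `thr A x y` is empty use `3 ≤ W.card`).
-/

set_option autoImplicit false

namespace MP44257e

variable {v n : ℕ} {A : Finset (Finset (Fin v))} {x y z : Fin v}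

theorem sun_le (hA : IsFam [0, 1, 3] (n + 3) A) (hxy : x ≠ y) (h : Sun A x y)
    {W : Finset (Fin v)} (hW : 3 ≤ W.card) (hYW : Yu A x y ⊆ W) :
    (thr A x y).card * n ≤ W.card - 3 := by
  classical
  obtain ⟨z, hzx, hzy, hz⟩ := h
  rcases (thr A x y).eq_empty_or_nonempty with h0 | ⟨X₀, hX₀⟩
  · rw [h0, Finset.card_empty, Nat.zero_mul]
    exact Nat.zero_le _
  obtain ⟨T, hT⟩ : ∃ T : Finset (Fin v), T = {x, y, z} := ⟨_, rfl⟩
  have hTc : T.card = 3 := by
    rw [hT]
    exact Finset.card_eq_three.2 ⟨x, y, z, hxy, hzx.symm, hzy.symm, rfl⟩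
  have hTX : ∀ X ∈ thr A x y, T ⊆ X := by
    intro X hX a ha
    have h1 := mem_thr.1 hX
    rw [hT] at ha
    simp only [Finset.mem_insert, Finset.mem_singleton] at ha
    rcases ha with rfl | rfl | rfl
    · exact h1.2.1
    · exact h1.2.2
    · exact hz X hX
  have hXW : ∀ X ∈ thr A x y, X ⊆ W := by
    intro X hX a ha
    have h1 := mem_thr.1 hX
    exact hYW (mem_Yu.2 ⟨X, h1.1, h1.2.1, h1.2.2, ha⟩)
  have hdisj : ∀ X ∈ thr A x y, ∀ Y ∈ thr A x y, X ≠ Y → Disjoint (X \ T) (Y \ T) := by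
    intro X hX Y hY hne
    rw [Finset.disjoint_left]
    intro p hp hq
    rw [Finset.mem_sdiff] at hp hq
    refine hne (no_four hA (mem_thr.1 hX).1 (mem_thr.1 hY).1 (S := insert p T) ?_ ?_ ?_)
    · rw [Finset.card_insert_of_notMem hp.2, hTc]
    · exact Finset.insert_subset hp.1 (hTX X hX)
    · exact Finset.insert_subset hq.1 (hTX Y hY)
  have h1 : ((thr A x y).biUnion fun X => X \ T).card = (thr A x y).card * n := by
    rw [Finset.card_biUnion hdisj, Finset.sum_const_nat]
    intro X hX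
    rw [Finset.card_sdiff_of_subset (hTX X hX), hTc, hA.1 X (mem_thr.1 hX).1]
    rfl
  have h2 : ((thr A x y).biUnion fun X => X \ T).card ≤ (W \ T).card := by
    refine Finset.card_le_card ?_
    intro a ha
    obtain ⟨X, hX, ha⟩ := Finset.mem_biUnion.1 ha
    rw [Finset.mem_sdiff] at ha ⊢
    exact ⟨hXW X hX ha.1, ha.2⟩
  rw [Finset.card_sdiff_of_subset ((hTX X₀ hX₀).trans (hXW X₀ hX₀)), hTc] at h2
  rw [← h1]
  exact h2

end MP44257e
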