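import Pool.Agent.H.MP_44257e_co.UB.B3

/-!
# The structure of a non-sunflower pair of large degree (k = n + 3)

`card_Yu_eq`: let `w` be full (`exists_full`): `n + 1` members `X_i` through `x, y, w`; pairwise
they meet in `{x, y, w}` exactly. Their union has `3 + (n + 1) * n` points. It is all of
`Yu A x y`: let `X' ∈ thr A x y` with `w ∉ X'`; it meets each `X_i` in exactly one point of
`X' \ {x, y}`, these points are different (`no_four`), and `X' \ {x, y}` has `n + 1` points, so
`X'` is in the union of the `X_i`.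

`closed`: put `D q = (thr3 A x y q).card`. By `sum_thr3`, `thr3_le` (all `D q ≤ n + 1`) and
`n ^ 2 + n ≤ (thr A x y).card`, for every `X ∈ thr A x y` the sum of `n + 1 - D q` over
`q ∈ X \ {x, y}` is at most 1. Let `B` be as stated, `U = Yu A x y \ {x, y}`. Every
`X ∈ thr A x y` is different from `B` (`y ∉ B`) and contains `x`, so it meets `B \ {x}` in `0` or
`2` points. For `q ∈ B ∩ U`: each of the `D q` members `X ∈ thr3 A x y q` contains another point
of `B ∩ U`, different ones for different `X` (`no_four` with `x, y, q`, the point); so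
`D q + 1 ≤ (B ∩ U).card`. Take `X ∈ thr3 A x y p`, it contains another `p' ∈ B ∩ U`; one of
`D p`, `D p'` is `n + 1` (their deficiencies add up to at most 1). So `n + 2 ≤ (B ∩ U).card`, and
`B \ {x}` has `n + 2` points: `B ⊆ {x} ∪ U`.
-/

set_option autoImplicit false

namespace MP44257e

variable {v n : ℕ} {A : Finset (Finset (Fin v))} {x y : Fin v}

private theorem S2_third (hA : IsFam [0, 1, 3] (n + 3) A) {B X : Finset (Fin v)} (hB : B ∈ A)
    (hX : X ∈ A) (hne : X ≠ B) {q : Fin v} (hqx : q ≠ x) (hxX : x ∈ X) (hxB : x ∈ B) (hqX : q ∈ X)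
    (hqB : q ∈ B) : ∃ w, w ∈ X ∧ w ∈ B ∧ w ≠ x ∧ w ≠ q := by
  classical
  have h1 := inter_three hA hX hB hne hqx.symm hxX hqX hxB hqB
  have h2 : ∃ w ∈ X ∩ B, w ∉ ({x, q} : Finset (Fin v)) := by
    by_contra hcon
    push Not at hcon
    have h3 : (X ∩ B).card ≤ ({x, q} : Finset (Fin v)).card :=
      Finset.card_le_card fun w hw => hcon w hw
    have h4 : ({x, q} : Finset (Fin v)).card ≤ 2 := Finset.card_le_two
    omega
  obtain ⟨w, hw, hw2⟩ := h2
  rw [Finset.mem_inter] at hw
  rw [Finset.mem_insert, Finset.mem_singleton, not_or] at hw2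
  exact ⟨w, hw.1, hw.2, hw2.1, hw2.2⟩

private theorem S2_count (hA : IsFam [0, 1, 3] (n + 3) A) {B : Finset (Fin v)} (hxy : x ≠ y)
    (hB : B ∈ A) (hx : x ∈ B) (hy : y ∉ B) {q : Fin v} (hq : q ∈ B) (hqx : q ≠ x)
    (hqY : q ∈ Yu A x y) : (thr3 A x y q).card + 1 ≤
      ((B.erase x).filter fun w => w ∈ Yu A x y).card := by
  classical
  have hex : ∀ X ∈ thr3 A x y q, ∃ w, w ∈ X ∧ w ∈ B ∧ w ≠ x ∧ w ≠ q := by
    intro X hX
    obtain ⟨h1, h2, h3, h4⟩ := mem_thr3.1 hX
    refine S2_third hA hB h1 ?_ hqx h2 hx h4 hq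
    rintro rfl
    exact hy h3
  have : Nonempty (Fin v) := ⟨x⟩
  choose! w hw using hex
  have hqT : q ∈ (B.erase x).filter fun w => w ∈ Yu A x y :=
    Finset.mem_filter.2 ⟨Finset.mem_erase.2 ⟨hqx, hq⟩, hqY⟩
  have h1 : (thr3 A x y q).card ≤ (((B.erase x).filter fun w => w ∈ Yu A x y).erase q).card := by
    refine Finset.card_le_card_of_injOn w ?_ ?_
    · intro X hX
      obtain ⟨h2, h3, h4, h5⟩ := hw X hX
      obtain ⟨h6, h7, h8, h9⟩ := mem_thr3.1 hX
      refine Finset.mem_coe.2 (Finset.mem_erase.2 ⟨h5, Finset.mem_filter.2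
        ⟨Finset.mem_erase.2 ⟨h4, h3⟩, mem_Yu.2 ⟨X, h6, h7, h8, h2⟩⟩⟩)
    · intro X hX X' hX' hww
      obtain ⟨h2, h3, h4, h5⟩ := hw X hX
      obtain ⟨h6, h7, h8, h9⟩ := mem_thr3.1 hX
      obtain ⟨g2, g3, g4, g5⟩ := hw X' hX'
      obtain ⟨g6, g7, g8, g9⟩ := mem_thr3.1 hX'
      have hqy : q ≠ y := by
        rintro rfl
        exact hy hq
      have hwy : w X ≠ y := by
        intro h
        rw [h] at h3
        exact hy h3
      refine no_four hA h6 g6 (S := {x, y, q, w X}) ?_ ?_ ?_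
      · have e1 : (({x, y, q, w X} : Finset (Fin v))).card = 4 := by
          rw [Finset.card_insert_of_notMem, Finset.card_insert_of_notMem,
            Finset.card_insert_of_notMem, Finset.card_singleton]
          · rw [Finset.mem_singleton]
            exact fun h => h5 h.symm
          · rw [Finset.mem_insert, Finset.mem_singleton, not_or]
            exact ⟨fun h => hqy h.symm, fun h => hwy h.symm⟩
          · rw [Finset.mem_insert, Finset.mem_insert, Finset.mem_singleton, not_or, not_or]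
            exact ⟨hxy, fun h => hqx h.symm, fun h => h4 h.symm⟩
        exact e1.ge
      · intro a ha
        rw [Finset.mem_insert, Finset.mem_insert, Finset.mem_insert, Finset.mem_singleton] at ha
        rcases ha with rfl | rfl | rfl | rfl
        · exact h7
        · exact h8
        · exact h9
        · exact h2
      · intro a ha
        rw [Finset.mem_insert, Finset.mem_insert, Finset.mem_insert, Finset.mem_singleton] at ha
        rcases ha with rfl | rfl | rfl | rfl
        · exact g7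
        · exact g8
        · exact g9
        · rw [hww]
          exact g2
  rw [Finset.card_erase_of_mem hqT] at h1
  have h2 : 0 < ((B.erase x).filter fun w => w ∈ Yu A x y).card := Finset.card_pos.2 ⟨q, hqT⟩
  omega

private theorem S2_full (hA : IsFam [0, 1, 3] (n + 3) A) (hb : Bad n A x y) {X : Finset (Fin v)}
    (hX : X ∈ thr A x y) {q q' : Fin v} (hq : q ∈ X) (hq' : q' ∈ X) (hqx : q ≠ x) (hqy : q ≠ y)
    (hqx' : q' ≠ x) (hqy' : q' ≠ y) (hqq : q' ≠ q) :
    (thr3 A x y q).card = n + 1 ∨ (thr3 A x y q').card = n + 1 := by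
  classical
  obtain ⟨hxy, hsun, hcard⟩ := hb
  have hle : ∀ w, w ≠ x → w ≠ y → (thr3 A x y w).card ≤ n + 1 := by
    intro w hwx hwy
    refine thr3_le hA hxy hwx hwy ?_
    by_contra hcon
    push Not at hcon
    exact hsun ⟨w, hwx, hwy, hcon⟩
  by_contra hcon
  rw [not_or] at hcon
  obtain ⟨hXA, hxX, hyX⟩ := mem_thr.1 hX
  have h1 := sum_thr3 hA hxy hX
  have hyE : y ∈ X.erase x := Finset.mem_erase.2 ⟨hxy.symm, hyX⟩
  have hcE : ((X.erase x).erase y).card = n + 1 := by
    rw [Finset.card_erase_of_mem hyE, Finset.card_erase_of_mem hxX, hA.1 X hXA]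
    omega
  have hqE : q ∈ (X.erase x).erase y :=
    Finset.mem_erase.2 ⟨hqy, Finset.mem_erase.2 ⟨hqx, hq⟩⟩
  have hqE' : q' ∈ ((X.erase x).erase y).erase q :=
    Finset.mem_erase.2 ⟨hqq, Finset.mem_erase.2 ⟨hqy', Finset.mem_erase.2 ⟨hqx', hq'⟩⟩⟩
  rw [← Finset.add_sum_erase _ _ hqE, ← Finset.add_sum_erase _ _ hqE'] at h1
  have h2 : ∑ w ∈ (((X.erase x).erase y).erase q).erase q', (thr3 A x y w).card ≤
      (((((X.erase x).erase y).erase q).erase q').card) • (n + 1) := by
    refine Finset.sum_le_card_nsmul _ _ _ fun w hw => ?_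
    have h3 := Finset.mem_of_mem_erase (Finset.mem_of_mem_erase hw)
    exact hle w (Finset.mem_erase.1 (Finset.mem_erase.1 h3).2).1 (Finset.mem_erase.1 h3).1
  have h3 : ((((X.erase x).erase y).erase q).erase q').card = n + 1 - 1 - 1 := by
    rw [Finset.card_erase_of_mem hqE', Finset.card_erase_of_mem hqE, hcE]
  have h4 : 0 < (((X.erase x).erase y).erase q).card := Finset.card_pos.2 ⟨q', hqE'⟩
  rw [Finset.card_erase_of_mem hqE, hcE] at h4
  obtain ⟨m, rfl⟩ : ∃ m, n = m + 1 := ⟨n - 1, by omega⟩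
  rw [h3, smul_eq_mul] at h2
  have h5 : m + 1 + 1 - 1 - 1 = m := by omega
  rw [h5] at h2
  have h6 := hle q hqx hqy
  have h7 := hle q' hqx' hqy'
  have h8 : (thr3 A x y q).card ≤ m + 1 := by omega
  have h9 : (thr3 A x y q').card ≤ m + 1 := by omega
  nlinarith

theorem closed (hA : IsFam [0, 1, 3] (n + 3) A) (hb : Bad n A x y) {B : Finset (Fin v)}
    (hB : B ∈ A) (hx : x ∈ B) {p : Fin v} (hp : p ∈ B) (hpx : p ≠ x) (hpY : p ∈ Yu A x y) :
    B ⊆ Yu A x y := by
  by_cases hy : y ∈ B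
  · intro q hq
    exact mem_Yu.2 ⟨B, hB, hx, hy, hq⟩
  · classical
    obtain ⟨X, hXA, hxX, hyX, hpX⟩ := mem_Yu.1 hpY
    have hne : X ≠ B := by
      rintro rfl
      exact hy hyX
    obtain ⟨p', hpX', hpB', hpx', hpp'⟩ := S2_third hA hB hXA hne hpx hxX hx hpX hp
    have hpY' : p' ∈ Yu A x y := mem_Yu.2 ⟨X, hXA, hxX, hyX, hpX'⟩
    have hpy : p ≠ y := by
      rintro rfl
      exact hy hp
    have hpy' : p' ≠ y := by
      rintro rfl
      exact hy hpB'
    have h1 := S2_full hA hb (mem_thr.2 ⟨hXA, hxX, hyX⟩) hpX hpX' hpx hpy hpx' hpy' hpp'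
    have h2 : n + 2 ≤ ((B.erase x).filter fun w => w ∈ Yu A x y).card := by
      rcases h1 with h1 | h1
      · have h3 := S2_count hA hb.1 hB hx hy hp hpx hpY
        omega
      · have h3 := S2_count hA hb.1 hB hx hy hpB' hpx' hpY'
        omega
    have h3 : (B.erase x).card = n + 2 := by
      rw [Finset.card_erase_of_mem hx, hA.1 B hB]
      omega
    have h4 : ((B.erase x).filter fun w => w ∈ Yu A x y) = B.erase x :=
      Finset.eq_of_subset_of_card_le (Finset.filter_subset _ _) (by omega)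
    intro q hq
    by_cases hqx : q = x
    · rw [hqx]
      exact mem_Yu.2 ⟨X, hXA, hxX, hyX, hxX⟩
    · have h5 : q ∈ B.erase x := Finset.mem_erase.2 ⟨hqx, hq⟩
      rw [← h4] at h5
      exact (Finset.mem_filter.1 h5).2

end MP44257e
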