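import Pool.Agent.H.MP_44257e_co.UB.S1
import Pool.Agent.H.MP_44257e_co.UB.S2

/-!
# The components at a point `x` (k = n + 3)

`Zx n A x` is the union of the sets `Yu A x y \ {x}` over the bad pairs `x, y`.

`Yu_eq_or`: let `p ≠ x` be in both. `p ∈ Yu A x y'` gives `X ∈ A` with `x, y', p ∈ X`; by
`closed` (for `y` and `p`) `X ⊆ Yu A x y`, so `y' ∈ Yu A x y`. Then every `X' ∈ thr A x y'` is in
`Yu A x y` by `closed` (with the point `y'`), so `Yu A x y' ⊆ Yu A x y`; both have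
`n ^ 2 + n + 3` points (`card_Yu_eq`, here `1 ≤ n`), so they are equal.

`card_Zx`: `Zx` is the union of the image of the map `y ↦ (Yu A x y).erase x` on the bad `y`; the
members of this image have `n ^ 2 + n + 2` points and are pairwise disjoint
(`Finset.card_biUnion` for the image; `x ∈ Yu A x y` as `thr A x y` is not empty).

`Yu_out`: let `z ∉ Zx`, `z ≠ x`, `q ∈ Yu A x z`, so `X ∈ A` with `x, z, q ∈ X`. If `q ∈ Zx`, then
`q ∈ Yu A x y`, `q ≠ x`, `y` bad, so `X ⊆ Yu A x y` by `closed` and `z ∈ Zx`.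
-/

set_option autoImplicit false

namespace MP44257e

open Classical in
/-- The union of the components at `x`. -/
noncomputable def Zx {v : ℕ} (n : ℕ) (A : Finset (Finset (Fin v))) (x : Fin v) :
    Finset (Fin v) :=
  (Finset.univ.filter fun y => Bad n A x y).biUnion fun y => (Yu A x y).erase x

variable {v n : ℕ} {A : Finset (Finset (Fin v))} {x : Fin v}

theorem mem_Zx {q : Fin v} : q ∈ Zx n A x ↔ q ≠ x ∧ ∃ y, Bad n A x y ∧ q ∈ Yu A x y := by
  simp only [Zx, Finset.mem_biUnion, Finset.mem_filter, Finset.mem_univ, true_and,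
    Finset.mem_erase]
  constructor
  · rintro ⟨y, hy, hq, hqy⟩
    exact ⟨hq, y, hy, hqy⟩
  · rintro ⟨hq, y, hy, hqy⟩
    exact ⟨y, hy, hq, hqy⟩

theorem Yu_eq_or (hn : 1 ≤ n) (hA : IsFam [0, 1, 3] (n + 3) A) {y y' : Fin v}
    (h : Bad n A x y) (h' : Bad n A x y') {p : Fin v} (hpx : p ≠ x) (hp : p ∈ Yu A x y)
    (hp' : p ∈ Yu A x y') : Yu A x y = Yu A x y' := by
  obtain ⟨X, hX, hxX, hyX, hpX⟩ := mem_Yu.1 hp'
  have h1 : y' ∈ Yu A x y := closed hA h hX hxX hpX hpx hp hyX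
  have h2 : Yu A x y' ⊆ Yu A x y := by
    intro q hq
    obtain ⟨X', hX', hxX', hyX', hqX'⟩ := mem_Yu.1 hq
    exact closed hA h hX' hxX' hyX' h'.1.symm h1 hqX'
  have h3 := card_Yu_eq hA h.1 h.2.1 (le_trans (by omega) h.2.2)
  have h4 := card_Yu_eq hA h'.1 h'.2.1 (le_trans (by omega) h'.2.2)
  exact (Finset.eq_of_subset_of_card_le h2 (by rw [h3, h4])).symm

theorem Yu_out (hA : IsFam [0, 1, 3] (n + 3) A) {z : Fin v} (hzx : z ≠ x)
    (hz : z ∉ Zx n A x) : Yu A x z ⊆ (Zx n A x)ᶜ := by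
  intro q hq
  obtain ⟨X, hX, hxX, hzX, hqX⟩ := mem_Yu.1 hq
  rw [Finset.mem_compl]
  intro hqZ
  obtain ⟨hqx, y, hy, hqy⟩ := mem_Zx.1 hqZ
  exact hz (mem_Zx.2 ⟨hzx, y, hy, closed hA hy hX hxX hqX hqx hqy hzX⟩)

theorem not_bad_of_not_mem (hn : 1 ≤ n) {z : Fin v} (hz : z ∉ Zx n A x) : ¬ Bad n A x z := by
  intro h
  obtain ⟨X, hX⟩ : (thr A x z).Nonempty := Finset.card_pos.1 (by have := h.2.2; omega)
  obtain ⟨h1, h2, h3⟩ := mem_thr.1 hX
  exact hz (mem_Zx.2 ⟨h.1.symm, z, h, mem_Yu.2 ⟨X, h1, h2, h3, h3⟩⟩)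

end MP44257e
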