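import Pool.Agent.H.MP_44257e_co.UB.C1

/-!
# The components at a point `x` (k = n + 3)

`Zx n A x` is the union of the sets `Yu A x y \ {x}` over the bad pairs `x, y`.

`Yu_eq_or`: let `p ≠ x` be in both. `p ∈ Yu A x y'` gives `X ∈ A` with `x, y', p ∈ X`; by
`closed` (for `y` and `p`) `X ⊆ Yu A x y`, so `y' ∈ Yu A x y`. Then every `X' ∈ thr A x y'` is in
`Yu A x y` by `closed` (with the point `y'`), so `Yu A x y' ⊆ Yu A x y`; both have
`n ^ 2 + n + 3` points (`card_Yu_eq`, here `1 ≤ n`), so they are equal.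

`card_Zx`: `Zx` is the union of the image of the map `y ↦ (Yu A x y).erase x` on the bad `y`; the
members of this image have `n ^ 2 + n + 2` points and are pairwise disjoint
(`Finset.card_biUnion` for the image; `x ∈ Yu A x y` as `thr A x y` is not empty).

`Yu_out`: let `z ∉ Zx`, `z ≠ x`, `q ∈ Yu A x z`, so `X ∈ A` with `x, z, q ∈ X`. If `q ∈ Zx`, then
`q ∈ Yu A x y`, `q ≠ x`, `y` bad, so `X ⊆ Yu A x y` by `closed` and `z ∈ Zx`.
-/

set_option autoImplicit false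

namespace MP44257e

variable {v n : ℕ} {A : Finset (Finset (Fin v))} {x : Fin v}

theorem card_Zx (hn : 1 ≤ n) (hA : IsFam [0, 1, 3] (n + 3) A) (h : ∃ y, Bad n A x y) :
    ∃ s, 1 ≤ s ∧ (Zx n A x).card = s * (n ^ 2 + n + 2) := by
  classical
  obtain ⟨P, hP⟩ : ∃ P : Finset (Fin v), ∀ y, y ∈ P ↔ Bad n A x y :=
    ⟨Finset.univ.filter fun y => Bad n A x y, fun y => by simp⟩
  obtain ⟨Q, hQ⟩ : ∃ Q, Q = P.image fun y => (Yu A x y).erase x := ⟨_, rfl⟩
  have h1 : Zx n A x = Q.biUnion id := by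
    ext q
    rw [mem_Zx, Finset.mem_biUnion]
    constructor
    · rintro ⟨hq, y, hy, hqy⟩
      refine ⟨(Yu A x y).erase x, ?_, Finset.mem_erase.2 ⟨hq, hqy⟩⟩
      rw [hQ]
      exact Finset.mem_image_of_mem _ ((hP y).2 hy)
    · rintro ⟨T, hT, hqT⟩
      rw [hQ, Finset.mem_image] at hT
      obtain ⟨y, hy, rfl⟩ := hT
      have h2 := Finset.mem_erase.1 hqT
      exact ⟨h2.1, y, (hP y).1 hy, h2.2⟩
  have h2 : ∀ T ∈ Q, ∀ T' ∈ Q, T ≠ T' → Disjoint (id T) (id T') := by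
    intro T hT T' hT' hne
    rw [hQ, Finset.mem_image] at hT hT'
    obtain ⟨y, hy, rfl⟩ := hT
    obtain ⟨y', hy', rfl⟩ := hT'
    rw [Finset.disjoint_left]
    intro p hp hp'
    have h3 := Finset.mem_erase.1 hp
    have h4 := Finset.mem_erase.1 hp'
    exact hne (by rw [Yu_eq_or hn hA ((hP y).1 hy) ((hP y').1 hy') h3.1 h3.2 h4.2])
  have h3 : ∀ T ∈ Q, (id T).card = n ^ 2 + n + 2 := by
    intro T hT
    rw [hQ, Finset.mem_image] at hT
    obtain ⟨y, hy, rfl⟩ := hT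
    have hb := (hP y).1 hy
    have h4 := card_Yu_eq hA hb.1 hb.2.1 (le_trans (by omega) hb.2.2)
    have h5 : x ∈ Yu A x y := by
      have h6 : 0 < (thr A x y).card := lt_of_lt_of_le (by positivity) hb.2.2
      obtain ⟨X, hX⟩ := Finset.card_pos.1 h6
      obtain ⟨h7, h8, h9⟩ := mem_thr.1 hX
      exact mem_Yu.2 ⟨X, h7, h8, h9, h8⟩
    show ((Yu A x y).erase x).card = _
    rw [Finset.card_erase_of_mem h5, h4]
    rfl
  refine ⟨Q.card, ?_, ?_⟩
  · obtain ⟨y, hy⟩ := h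
    rw [Nat.one_le_iff_ne_zero, ← Nat.pos_iff_ne_zero, Finset.card_pos]
    refine ⟨(Yu A x y).erase x, ?_⟩
    rw [hQ]
    exact Finset.mem_image_of_mem _ ((hP y).2 hy)
  · rw [h1, Finset.card_biUnion h2, Finset.sum_congr rfl h3, Finset.sum_const, smul_eq_mul]

end MP44257e
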