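import Pool.Agent.H.MP_44257e_co.Defs

/-!
# MP_44257e_co, upper bound for `N({0,1,3}, k)`: definitions
-/

set_option autoImplicit false

namespace MP44257e

variable {v : ℕ}

/-- The members of `A` through `x` and `y`. -/
def thr (A : Finset (Finset (Fin v))) (x y : Fin v) : Finset (Finset (Fin v)) :=
  A.filter fun X => x ∈ X ∧ y ∈ X

/-- The members of `A` through `x`, `y` and `z`. -/
def thr3 (A : Finset (Finset (Fin v))) (x y z : Fin v) : Finset (Finset (Fin v)) :=
  A.filter fun X => x ∈ X ∧ y ∈ X ∧ z ∈ X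

/-- The pair `x, y` is a sunflower pair with kernel `x, y, z` for some `z`. -/
def Sun (A : Finset (Finset (Fin v))) (x y : Fin v) : Prop :=
  ∃ z, z ≠ x ∧ z ≠ y ∧ ∀ X ∈ thr A x y, z ∈ X

/-- `c x y` is the third point of the line through `x` and `y`; the members of `A` are closed
under `c`, and three points that are not on a line are in a member of `A`. -/
def IsDes (A : Finset (Finset (Fin v))) (c : Fin v → Fin v → Fin v) : Prop :=
  (∀ x y, x ≠ y → c x y ≠ x ∧ c x y ≠ y) ∧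
  (∀ X ∈ A, ∀ x ∈ X, ∀ y ∈ X, x ≠ y → c x y ∈ X) ∧
  ∀ x y z, x ≠ y → z ≠ x → z ≠ y → z ≠ c x y → ∃ X ∈ A, x ∈ X ∧ y ∈ X ∧ z ∈ X

/-- The union of the members of `A` through `x` and `y`. -/
def Yu (A : Finset (Finset (Fin v))) (x y : Fin v) : Finset (Fin v) := (thr A x y).biUnion id

/-- The pair `x, y` is bad: not a sunflower and of degree at least `n ^ 2 + n`. -/
def Bad (n : ℕ) (A : Finset (Finset (Fin v))) (x y : Fin v) : Prop :=
  x ≠ y ∧ ¬ Sun A x y ∧ n ^ 2 + n ≤ (thr A x y).card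

theorem mem_thr {A : Finset (Finset (Fin v))} {x y : Fin v} {X : Finset (Fin v)} :
    X ∈ thr A x y ↔ X ∈ A ∧ x ∈ X ∧ y ∈ X := by simp [thr]

theorem mem_thr3 {A : Finset (Finset (Fin v))} {x y z : Fin v} {X : Finset (Fin v)} :
    X ∈ thr3 A x y z ↔ X ∈ A ∧ x ∈ X ∧ y ∈ X ∧ z ∈ X := by simp [thr3]

theorem mem_Yu {A : Finset (Finset (Fin v))} {x y p : Fin v} :
    p ∈ Yu A x y ↔ ∃ X ∈ A, x ∈ X ∧ y ∈ X ∧ p ∈ X := by
  simp [Yu, mem_thr, and_assoc]

/-- Two different members of an `A({0,1,3}, k, v)` with two common points meet in three points. -/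
theorem inter_three {k : ℕ} {A : Finset (Finset (Fin v))} (hA : IsFam [0, 1, 3] k A)
    {X Y : Finset (Fin v)} (hX : X ∈ A) (hY : Y ∈ A) (h : X ≠ Y) {x y : Fin v} (hxy : x ≠ y)
    (h1 : x ∈ X) (h2 : y ∈ X) (h3 : x ∈ Y) (h4 : y ∈ Y) : (X ∩ Y).card = 3 := by
  have h5 := hA.2 X hX Y hY h
  have h6 : 2 ≤ (X ∩ Y).card := by
    have : ({x, y} : Finset (Fin v)) ⊆ X ∩ Y := by
      intro a ha
      simp only [Finset.mem_insert, Finset.mem_singleton] at ha
      rcases ha with rfl | rfl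
      · exact Finset.mem_inter.2 ⟨h1, h3⟩
      · exact Finset.mem_inter.2 ⟨h2, h4⟩
    calc 2 = ({x, y} : Finset (Fin v)).card := (Finset.card_pair hxy).symm
      _ ≤ _ := Finset.card_le_card this
  simp only [List.mem_cons, List.not_mem_nil, or_false] at h5
  omega

/-- No two different members of an `A({0,1,3}, k, v)` share four points. -/
theorem no_four {k : ℕ} {A : Finset (Finset (Fin v))} (hA : IsFam [0, 1, 3] k A)
    {X Y : Finset (Fin v)} (hX : X ∈ A) (hY : Y ∈ A) {S : Finset (Fin v)} (hS : 4 ≤ S.card)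
    (h1 : S ⊆ X) (h2 : S ⊆ Y) : X = Y := by
  by_contra h
  have h5 := hA.2 X hX Y hY h
  have h6 : S.card ≤ (X ∩ Y).card := Finset.card_le_card (Finset.subset_inter h1 h2)
  simp only [List.mem_cons, List.not_mem_nil, or_false] at h5
  omega

end MP44257e
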