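import Pool.Agent.H.MP_44257e_co.UB.Defs

/-!
# Counting (k = n + 3)

`total`: double counting of `(x, y, X)` with `x ≠ y` in `X ∈ A`.

`des_of_sun`: choose `c x y` = the point of `Sun`. For `z` off the line: the sets
`X \ {x, y, c x y}`, `X ∈ thr A x y`, are pairwise disjoint with `n` points each (as in `sun_le`),
in total `v - 3`, all points off the line.

`des_thr`: for `IsDes`: the sets `X \ {x, y, c x y}`, `X ∈ thr A x y`, partition the complement of
`{x, y, c x y}` (disjoint by `no_four`, covering by the third part of `IsDes`).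
-/

set_option autoImplicit false

namespace MP44257e

variable {v n : ℕ} {A : Finset (Finset (Fin v))}

theorem total (hA : IsFam [0, 1, 3] (n + 3) A) :
    ∑ x, ∑ y ∈ Finset.univ.erase x, (thr A x y).card = A.card * ((n + 3) * (n + 2)) := by
  classical
  have h1 : ∀ x y : Fin v, (thr A x y).card = ∑ X ∈ A, if x ∈ X ∧ y ∈ X then 1 else 0 := by
    intro x y
    unfold thr
    rw [Finset.card_filter]
  have h2 : ∑ x, ∑ y ∈ Finset.univ.erase x, (thr A x y).card =
      ∑ X ∈ A, ∑ x : Fin v, ∑ y ∈ Finset.univ.erase x, if x ∈ X ∧ y ∈ X then 1 else 0 := by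
    rw [Finset.sum_comm' (s := A) (t := fun _ => Finset.univ) (t' := Finset.univ) (s' := fun _ => A)
      (by simp)]
    refine Finset.sum_congr rfl fun x _ => ?_
    rw [Finset.sum_comm]
    exact Finset.sum_congr rfl fun y _ => h1 x y
  rw [h2]
  have h3 : ∀ X ∈ A, ∑ x : Fin v, ∑ y ∈ Finset.univ.erase x,
      (if x ∈ X ∧ y ∈ X then 1 else 0) = (n + 3) * (n + 2) := by
    intro X hX
    have hc : X.card = n + 3 := hA.1 X hX
    have h4 : ∀ x : Fin v, ∑ y ∈ Finset.univ.erase x, (if x ∈ X ∧ y ∈ X then 1 else 0) =
        if x ∈ X then n + 2 else 0 := by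
      intro x
      split_ifs with hx
      · rw [← Finset.card_filter]
        have h5 : (Finset.univ.erase x).filter (fun y => x ∈ X ∧ y ∈ X) = X.erase x := by
          ext y
          simp [hx]
        rw [h5, Finset.card_erase_of_mem hx, hc]
        rfl
      · exact Finset.sum_eq_zero fun y _ => if_neg fun h => hx h.1
    rw [Finset.sum_congr rfl fun x _ => h4 x, ← Finset.sum_filter, Finset.sum_const,
      smul_eq_mul]
    have h6 : (Finset.univ.filter fun x => x ∈ X) = X := by
      ext y
      simp
    rw [h6, hc]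
  rw [Finset.sum_congr rfl h3, Finset.sum_const, smul_eq_mul]

end MP44257e
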