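import Pool.Agent.H.MP_44257e_co.UB.Defs

/-!
# Counting (k = n + 3)

`total`: double counting of `(x, y, X)` with `x ≠ y` in `X ∈ A`.

`des_of_sun`: choose `c x y` = the point of `Sun`. For `z` off the line: the sets
`X \ {x, y, c x y}`, `X ∈ thr A x y`, are pairwise disjoint with `n` points each (as in `sun_le`),
in total `v - 3`, all points off the line.

`des_thr`: for `IsDes`: the sets `X \ {x, y, c x y}`, `X ∈ thr A x y`, partition the complement of
`{x, y, c x y}` (disjoint by `no_four`, covering by the third part of `IsDes`).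
-/

set_option autoImplicit false

namespace MP44257e

variable {v n : ℕ} {A : Finset (Finset (Fin v))}

private theorem K2_cov (hA : IsFam [0, 1, 3] (n + 3) A) {x y c : Fin v} (hxy : x ≠ y)
    (hcx : c ≠ x) (hcy : c ≠ y) (hc : ∀ X ∈ thr A x y, c ∈ X)
    (hcard : (thr A x y).card * n = v - 3) {z : Fin v} (hzx : z ≠ x) (hzy : z ≠ y)
    (hzc : z ≠ c) : ∃ X ∈ A, x ∈ X ∧ y ∈ X ∧ z ∈ X := by
  classical
  obtain ⟨L, hL⟩ : ∃ L : Finset (Fin v), L = {x, y, c} := ⟨_, rfl⟩
  have hL3 : L.card = 3 := Finset.card_eq_three.2 ⟨x, y, c, hxy, hcx.symm, hcy.symm, hL⟩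
  have hsub : ∀ X ∈ thr A x y, L ⊆ X := by
    intro X hX a ha
    have h1 := mem_thr.1 hX
    rw [hL] at ha
    simp only [Finset.mem_insert, Finset.mem_singleton] at ha
    rcases ha with rfl | rfl | rfl
    · exact h1.2.1
    · exact h1.2.2
    · exact hc X hX
  have hdisj : ∀ X ∈ thr A x y, ∀ Y ∈ thr A x y, X ≠ Y → Disjoint (X \ L) (Y \ L) := by
    intro X hX Y hY hne
    rw [Finset.disjoint_left]
    intro w hw hw'
    have h1 := Finset.mem_sdiff.1 hw
    have h2 := Finset.mem_sdiff.1 hw'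
    refine hne (no_four hA (mem_thr.1 hX).1 (mem_thr.1 hY).1 (S := insert w L) ?_ ?_ ?_)
    · rw [Finset.card_insert_of_notMem h1.2, hL3]
    · exact Finset.insert_subset h1.1 (hsub X hX)
    · exact Finset.insert_subset h2.1 (hsub Y hY)
  have hcardX : ∀ X ∈ thr A x y, (X \ L).card = n := by
    intro X hX
    rw [Finset.card_sdiff_of_subset (hsub X hX), hL3, hA.1 X (mem_thr.1 hX).1]
    exact Nat.add_sub_cancel n 3
  have hun : ((thr A x y).biUnion fun X => X \ L).card = v - 3 := by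
    rw [Finset.card_biUnion hdisj, Finset.sum_congr rfl hcardX, Finset.sum_const, smul_eq_mul,
      hcard]
  have hc3 : (Finset.univ \ L).card = v - 3 := by
    rw [Finset.card_sdiff_of_subset (Finset.subset_univ _), hL3, Finset.card_univ,
      Fintype.card_fin]
  have hss : ((thr A x y).biUnion fun X => X \ L) ⊆ Finset.univ \ L := by
    intro w hw
    obtain ⟨X, _, hw⟩ := Finset.mem_biUnion.1 hw
    exact Finset.mem_sdiff.2 ⟨Finset.mem_univ _, (Finset.mem_sdiff.1 hw).2⟩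
  have heq := Finset.eq_of_subset_of_card_le hss (by rw [hun, hc3])
  have hz : z ∈ Finset.univ \ L := by
    rw [hL]
    simp [hzx, hzy, hzc]
  rw [← heq] at hz
  obtain ⟨X, hX, hzX⟩ := Finset.mem_biUnion.1 hz
  have h1 := mem_thr.1 hX
  exact ⟨X, h1.1, h1.2.1, h1.2.2, (Finset.mem_sdiff.1 hzX).1⟩

theorem des_of_sun (hn : 1 ≤ n) (hv : 3 ≤ v) (hA : IsFam [0, 1, 3] (n + 3) A)
    (h : ∀ x y, x ≠ y → Sun A x y ∧ (thr A x y).card * n = v - 3) :
    ∃ c : Fin v → Fin v → Fin v, IsDes A c := by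
  classical
  have hch : ∀ x y : Fin v, ∃ z, x ≠ y → z ≠ x ∧ z ≠ y ∧ ∀ X ∈ thr A x y, z ∈ X := by
    intro x y
    by_cases hxy : x = y
    · exact ⟨x, fun h' => absurd hxy h'⟩
    · obtain ⟨z, hz⟩ := (h x y hxy).1
      exact ⟨z, fun _ => hz⟩
  choose c hc using hch
  refine ⟨c, fun x y hxy => ⟨(hc x y hxy).1, (hc x y hxy).2.1⟩,
    fun X hX x hx y hy hxy => (hc x y hxy).2.2 X (mem_thr.2 ⟨hX, hx, hy⟩), ?_⟩
  intro x y z hxy hzx hzy hzc
  exact K2_cov hA hxy (hc x y hxy).1 (hc x y hxy).2.1 (hc x y hxy).2.2 (h x y hxy).2 hzx hzy hzc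

end MP44257e
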