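import Pool.Agent.H.MP_44257e_co.UB.Defs

/-!
# Counting (k = n + 3)

`total`: double counting of `(x, y, X)` with `x ≠ y` in `X ∈ A`.

`des_of_sun`: choose `c x y` = the point of `Sun`. For `z` off the line: the sets
`X \ {x, y, c x y}`, `X ∈ thr A x y`, are pairwise disjoint with `n` points each (as in `sun_le`),
in total `v - 3`, all points off the line.

`des_thr`: for `IsDes`: the sets `X \ {x, y, c x y}`, `X ∈ thr A x y`, partition the complement of
`{x, y, c x y}` (disjoint by `no_four`, covering by the third part of `IsDes`).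
-/

set_option autoImplicit false

namespace MP44257e

variable {v n : ℕ} {A : Finset (Finset (Fin v))}

theorem des_thr (hn : 1 ≤ n) (hv : 3 ≤ v) (hA : IsFam [0, 1, 3] (n + 3) A)
    {c : Fin v → Fin v → Fin v} (hc : IsDes A c) {x y : Fin v} (hxy : x ≠ y) :
    (thr A x y).card * n = v - 3 := by
  obtain ⟨hc1, hc2, hc3⟩ := hc
  obtain ⟨hcx, hcy⟩ := hc1 x y hxy
  obtain ⟨L, hL⟩ : ∃ L : Finset (Fin v), L = {x, y, c x y} := ⟨_, rfl⟩
  have hLc : L.card = 3 := by
    rw [hL]
    exact Finset.card_eq_three.2 ⟨x, y, c x y, hxy, hcx.symm, hcy.symm, rfl⟩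
  have hmem : ∀ a, a ∈ L ↔ a = x ∨ a = y ∨ a = c x y := by
    intro a
    rw [hL]
    simp
  have hLX : ∀ X ∈ thr A x y, L ⊆ X := by
    intro X hX a ha
    obtain ⟨hXA, hx, hy⟩ := mem_thr.1 hX
    rcases (hmem a).1 ha with rfl | rfl | rfl
    · exact hx
    · exact hy
    · exact hc2 X hXA x hx y hy hxy
  have hcard : ∀ X ∈ thr A x y, (X \ L).card = n := by
    intro X hX
    rw [Finset.card_sdiff_of_subset (hLX X hX), hLc, hA.1 X (mem_thr.1 hX).1]
    omega
  have hdisj : ∀ X ∈ thr A x y, ∀ Y ∈ thr A x y, X ≠ Y → Disjoint (X \ L) (Y \ L) := by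
    intro X hX Y hY hne
    rw [Finset.disjoint_left]
    intro z hzX hzY
    rw [Finset.mem_sdiff] at hzX hzY
    apply hne
    refine no_four hA (mem_thr.1 hX).1 (mem_thr.1 hY).1 (S := insert z L) ?_ ?_ ?_
    · rw [Finset.card_insert_of_notMem hzX.2, hLc]
    · exact Finset.insert_subset hzX.1 (hLX X hX)
    · exact Finset.insert_subset hzY.1 (hLX Y hY)
  have hun : (thr A x y).biUnion (fun X => X \ L) = Finset.univ \ L := by
    ext z
    simp only [Finset.mem_biUnion, Finset.mem_sdiff, Finset.mem_univ, true_and]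
    constructor
    · rintro ⟨X, _, _, h⟩
      exact h
    · intro hz
      have hz' := hz
      rw [hmem] at hz'
      push Not at hz'
      obtain ⟨X, hX, h1, h2, h3⟩ := hc3 x y z hxy hz'.1 hz'.2.1 hz'.2.2
      exact ⟨X, mem_thr.2 ⟨hX, h1, h2⟩, h3, hz⟩
  have h1 : ((thr A x y).biUnion (fun X => X \ L)).card = (thr A x y).card * n := by
    rw [Finset.card_biUnion hdisj, Finset.sum_congr rfl hcard, Finset.sum_const, smul_eq_mul]
  rw [← h1, hun, Finset.card_sdiff_of_subset (Finset.subset_univ L), hLc, Finset.card_univ,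
    Fintype.card_fin]

end MP44257e
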