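import Pool.Agent.H.MP_44257e_co.UB.M3

/-!
# The matroid of a design: closures

The matroid `desM` has the independent sets `Ind`. Closure of `{x}`: `{x}`; of `{x, y}`:
`{x, y, c x y}`; of an independent triple: its block; of an independent quadruple: everything
(`ind_aug`/no independent 5-sets). Use `Matroid.Indep.mem_closure_iff` or
`Matroid.Indep.closure_eq_setOf_isBasis_insert`, i.e. for `I` independent and `e ∉ I`:
`e ∈ closure I ↔ ¬ Indep (insert e I)`.
-/

set_option autoImplicit false

namespace MP44257e

variable {v k : ℕ} {A : Finset (Finset (Fin v))} {c : Fin v → Fin v → Fin v}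

/-- There is a matroid on `Fin v` with the independent sets `Ind A c`. -/
theorem exists_matroid (hk : 6 ≤ k) (hkv : k < v) (hA : IsFam [0, 1, 3] k A)
    (hc : IsDes A c) :
    ∃ M : Matroid (Fin v), M.E = Set.univ ∧ ∀ I : Finset (Fin v), M.Indep (I : Set (Fin v)) ↔
      Ind A c I := by
  have h0 : Ind A c ∅ := by
    refine ⟨by simp, fun x hx => absurd hx (Finset.notMem_empty x), fun h => ?_⟩
    rw [Finset.card_empty] at h
    omega
  refine ⟨(IndepMatroid.ofFinset Set.univ (Ind A c) h0 (fun I J hJ h => ind_subset hJ h)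
    (fun I J hI hJ h => ind_aug hk hkv hA hc hI hJ h) (fun I _ => Set.subset_univ _)).matroid,
    rfl, fun I => ?_⟩
  rw [IndepMatroid.matroid_Indep]
  exact IndepMatroid.ofFinset_indep _ _ _ _ _ _

end MP44257e
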