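import Pool.Agent.H.MP_44257e_co.UB.M2

/-!
# The matroid of a design: closures

The matroid `desM` has the independent sets `Ind`. Closure of `{x}`: `{x}`; of `{x, y}`:
`{x, y, c x y}`; of an independent triple: its block; of an independent quadruple: everything
(`ind_aug`/no independent 5-sets). Use `Matroid.Indep.mem_closure_iff` or
`Matroid.Indep.closure_eq_setOf_isBasis_insert`, i.e. for `I` independent and `e ∉ I`:
`e ∈ closure I ↔ ¬ Indep (insert e I)`.
-/

set_option autoImplicit false

namespace MP44257e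

variable {v k : ℕ} {A : Finset (Finset (Fin v))} {c : Fin v → Fin v → Fin v}
  {M : Matroid (Fin v)}

theorem mem_closure_ind (hM : M.E = Set.univ)
    (hI : ∀ I : Finset (Fin v), M.Indep (I : Set (Fin v)) ↔ Ind A c I) {I : Finset (Fin v)}
    (h : Ind A c I) {e : Fin v} :
    e ∈ M.closure (I : Set (Fin v)) ↔ (e ∉ I → ¬ Ind A c (insert e I)) := by
  rw [Matroid.Indep.mem_closure_iff' ((hI I).2 h), ← Finset.coe_insert, hI, hM, Finset.mem_coe]
  constructor
  · rintro ⟨_, h1⟩ h2 h3
    exact h2 (h1 h3)
  · intro h1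
    refine ⟨Set.mem_univ e, fun h2 => ?_⟩
    by_contra h3
    exact h1 h3 h2

end MP44257e
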