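import Pool.Agent.H.MP_44257e_co.UB.M3
import Pool.Agent.H.MP_44257e_co.UB.N0

/-!
# The matroid of a design: closures

The matroid `desM` has the independent sets `Ind`. Closure of `{x}`: `{x}`; of `{x, y}`:
`{x, y, c x y}`; of an independent triple: its block; of an independent quadruple: everything
(`ind_aug`/no independent 5-sets). Use `Matroid.Indep.mem_closure_iff` or
`Matroid.Indep.closure_eq_setOf_isBasis_insert`, i.e. for `I` independent and `e ∉ I`:
`e ∈ closure I ↔ ¬ Indep (insert e I)`.
-/

set_option autoImplicit false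

namespace MP44257e

variable {v k : ℕ} {A : Finset (Finset (Fin v))} {c : Fin v → Fin v → Fin v}
  {M : Matroid (Fin v)}

theorem closure_empty' (hM : M.E = Set.univ)
    (hI : ∀ I : Finset (Fin v), M.Indep (I : Set (Fin v)) ↔ Ind A c I) (hc : IsDes A c) :
    M.closure ∅ = ∅ := by
  classical
  have h0 : Ind A c (∅ : Finset (Fin v)) := by
    refine ⟨by simp, ?_, ?_⟩
    · intro x hx
      exact absurd hx (Finset.notMem_empty x)
    · intro h
      simp at h
  ext e
  have h1 := mem_closure_ind hM hI h0 (e := e)
  rw [Finset.coe_empty] at h1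
  rw [h1]
  constructor
  · intro h2
    refine absurd ?_ (h2 (Finset.notMem_empty e))
    have h3 := ind_pair (A := A) hc e e
    rw [Finset.pair_eq_singleton] at h3
    exact h3
  · intro h2
    exact absurd h2 (Set.notMem_empty e)

theorem closure_single (hM : M.E = Set.univ)
    (hI : ∀ I : Finset (Fin v), M.Indep (I : Set (Fin v)) ↔ Ind A c I) (hc : IsDes A c)
    (x : Fin v) : M.closure {x} = {x} := by
  classical
  have h0 : Ind A c ({x} : Finset (Fin v)) := by
    have h3 := ind_pair (A := A) hc x x
    rw [Finset.pair_eq_singleton] at h3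
    exact h3
  ext e
  have h1 := mem_closure_ind hM hI h0 (e := e)
  rw [Finset.coe_singleton] at h1
  rw [h1, Set.mem_singleton_iff, Finset.mem_singleton]
  constructor
  · intro h2
    by_contra h3
    exact h2 h3 (ind_pair (A := A) hc e x)
  · intro h2 h3
    exact absurd h2 h3

private theorem N2_ind_triple (hk : 6 ≤ k) (hkv : k < v) (hA : IsFam [0, 1, 3] k A)
    (hc : IsDes A c) {x y e : Fin v} (hxy : x ≠ y) (hex : e ≠ x) (hey : e ≠ y)
    (he : e ≠ c x y) : Ind A c {e, x, y} := by
  classical
  have hs : ∀ {a b : Fin v}, a ≠ b → c a b = c b a := fun h => des_symm hk hkv hA hc h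
  have hi : ∀ {a b : Fin v}, a ≠ b → c a (c a b) = b := fun h => des_inv hk hkv hA hc h
  have h1 : ∀ {a b : Fin v}, a ≠ b → c a b ≠ a := fun h => (hc.1 _ _ h).1
  have h2 : ∀ {a b : Fin v}, a ≠ b → c a b ≠ b := fun h => (hc.1 _ _ h).2
  have hex' : c x e ≠ y := by
    intro h
    apply he
    rw [← h, hi (Ne.symm hex)]
  have hey' : c y e ≠ x := by
    intro h
    apply he
    rw [hs hxy]
    rw [← h, hi (Ne.symm hey)]
  refine ⟨?_, ?_, ?_⟩
  · exact (Finset.card_le_three).trans (by norm_num)
  · intro a ha b hb hab hmem
    simp only [Finset.mem_insert, Finset.mem_singleton] at ha hb hmem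
    have h3 := h1 hab
    have h4 := h2 hab
    rcases ha with rfl | rfl | rfl <;> rcases hb with rfl | rfl | rfl
    · exact hab rfl
    · rcases hmem with h | h | h
      · exact h3 h
      · exact h4 h
      · rw [hs hab] at h; exact hex' h
    · rcases hmem with h | h | h
      · exact h3 h
      · rw [hs hab] at h; exact hey' h
      · exact h4 h
    · rcases hmem with h | h | h
      · exact h4 h
      · exact h3 h
      · exact hex' h
    · exact hab rfl
    · rcases hmem with h | h | h
      · exact he h.symm
      · exact h3 h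
      · exact h4 h
    · rcases hmem with h | h | h
      · exact h4 h
      · exact hey' h
      · exact h3 h
    · rcases hmem with h | h | h
      · rw [hs hab] at h; exact he h.symm
      · exact h4 h
      · exact h3 h
    · exact hab rfl
  · intro h
    have h5 : ({e, x, y} : Finset (Fin v)).card ≤ 3 := Finset.card_le_three
    omega

theorem closure_pair' (hk : 6 ≤ k) (hkv : k < v) (hA : IsFam [0, 1, 3] k A)
    (hM : M.E = Set.univ) (hI : ∀ I : Finset (Fin v), M.Indep (I : Set (Fin v)) ↔ Ind A c I)
    (hc : IsDes A c) {x y : Fin v} (hxy : x ≠ y) :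
    M.closure {x, y} = {x, y, c x y} := by
  classical
  have h0 : Ind A c ({x, y} : Finset (Fin v)) := ind_pair (A := A) hc x y
  ext e
  have h1 := mem_closure_ind hM hI h0 (e := e)
  rw [Finset.coe_insert, Finset.coe_singleton] at h1
  rw [h1]
  simp only [Finset.mem_insert, Finset.mem_singleton, Set.mem_insert_iff, Set.mem_singleton_iff]
  constructor
  · intro h2
    by_contra h3
    push Not at h3
    obtain ⟨h4, h5, h6⟩ := h3
    refine h2 ?_ (N2_ind_triple hk hkv hA hc hxy h4 h5 h6)
    rintro (h | h)
    · exact h4 h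
    · exact h5 h
  · intro h2 h3 h4
    rcases h2 with h | h | h
    · exact h3 (Or.inl h)
    · exact h3 (Or.inr h)
    · refine h4.2.1 x ?_ y ?_ hxy ?_
      · simp
      · simp
      · rw [← h]
        simp

theorem closure_four (hM : M.E = Set.univ)
    (hI : ∀ I : Finset (Fin v), M.Indep (I : Set (Fin v)) ↔ Ind A c I)
    {I : Finset (Fin v)} (h : Ind A c I) (h4 : I.card = 4) :
    M.closure (I : Set (Fin v)) = Set.univ := by
  classical
  ext e
  rw [mem_closure_ind hM hI h]
  refine ⟨fun _ => Set.mem_univ e, fun _ h1 h2 => ?_⟩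
  have h3 := h2.1
  rw [Finset.card_insert_of_notMem h1] at h3
  omega

end MP44257e
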