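import Pool.Agent.H.MP_44257e_co.UB.M3
import Pool.Agent.H.MP_44257e_co.UB.N0

/-!
# The matroid of a design: closures

The matroid `desM` has the independent sets `Ind`. Closure of `{x}`: `{x}`; of `{x, y}`:
`{x, y, c x y}`; of an independent triple: its block; of an independent quadruple: everything
(`ind_aug`/no independent 5-sets). Use `Matroid.Indep.mem_closure_iff` or
`Matroid.Indep.closure_eq_setOf_isBasis_insert`, i.e. for `I` independent and `e ∉ I`:
`e ∈ closure I ↔ ¬ Indep (insert e I)`.
-/

set_option autoImplicit false

namespace MP44257e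

variable {v k : ℕ} {A : Finset (Finset (Fin v))} {c : Fin v → Fin v → Fin v}
  {M : Matroid (Fin v)}

theorem closure_triple (hk : 6 ≤ k) (hkv : k < v) (hA : IsFam [0, 1, 3] k A)
    (hM : M.E = Set.univ) (hI : ∀ I : Finset (Fin v), M.Indep (I : Set (Fin v)) ↔ Ind A c I)
    (hc : IsDes A c) {I X : Finset (Fin v)} (h : Ind A c I) (h3 : I.card = 3) (hX : X ∈ A)
    (hIX : I ⊆ X) : M.closure (I : Set (Fin v)) = (X : Set (Fin v)) := by
  ext e
  rw [mem_closure_ind hM hI h, Finset.mem_coe]
  constructor
  · intro h1
    by_contra heX
    have heI : e ∉ I := fun h2 => heX (hIX h2)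
    refine h1 heI ⟨?_, ?_, ?_⟩
    · rw [Finset.card_insert_of_notMem heI, h3]
    · have key : ∀ y ∈ I, c e y ∉ insert e I := by
        intro y hy h2
        have hey : e ≠ y := fun h4 => heI (h4 ▸ hy)
        obtain ⟨h5, h6⟩ := hc.1 e y hey
        rw [Finset.mem_insert] at h2
        rcases h2 with h2 | h2
        · exact h5 h2
        · have h7 : c y (c y e) = e := des_inv hk hkv hA hc (Ne.symm hey)
          rw [← des_symm hk hkv hA hc hey] at h7
          have h8 : c y (c e y) ∈ X :=
            hc.2.1 X hX y (hIX hy) (c e y) (hIX h2) (Ne.symm h6)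
          rw [h7] at h8
          exact heX h8
      intro x hx y hy hxy
      rw [Finset.mem_insert] at hx hy
      rcases hx with hx | hx
      · rcases hy with hy | hy
        · exact absurd (hx.trans hy.symm) hxy
        · rw [hx]
          exact key y hy
      · rcases hy with hy | hy
        · rw [hy, des_symm hk hkv hA hc (show x ≠ e from fun h4 => hxy (h4.trans hy.symm))]
          exact key x hx
        · rw [Finset.mem_insert, not_or]
          refine ⟨fun h4 => heX ?_, h.2.1 x hx y hy hxy⟩
          rw [← h4]
          exact hc.2.1 X hX x (hIX hx) y (hIX hy) hxy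
    · intro _ Y hY h4
      have h5 : I ⊆ Y := fun a ha => h4 (Finset.mem_insert_of_mem ha)
      have h6 : Y = X := block_unique hA hc h h3 hY hX h5 hIX
      exact heX (h6 ▸ h4 (Finset.mem_insert_self e I))
  · intro heX heI h1
    have h2 : (insert e I).card = 4 := by rw [Finset.card_insert_of_notMem heI, h3]
    refine h1.2.2 h2 X hX ?_
    intro a ha
    rw [Finset.mem_insert] at ha
    rcases ha with ha | ha
    · rw [ha]
      exact heX
    · exact hIX ha

end MP44257e
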