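import Pool.Agent.H.MP_44257e_co.UB.O1
import Pool.Agent.H.MP_44257e_co.UB.N1
import Pool.Agent.H.MP_44257e_co.UB.N2
import Pool.Agent.H.MP_44257e_co.UB.N3

/-!
# The matroid of a design is a PMD with the blocks as hyperplanes

`exists_ind4`: a block `X` (exists) contains an independent triple: `x ≠ y` in `X`, `z ∈ X` off
`x, y, c x y` (`k ≥ 6`), and a point outside `X` (`k < v`) gives an independent quadruple
(e.g. by `ind_aug`-like arguments or directly).

`pmd_of_des`: a flat `F` of rank `i` has a basis `I` (`Finset` of `i` points, `Ind`), and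
`F = closure I` (`IsFlat.closure`, `IsBasis.closure_eq_closure`); then Mat2. Hyperplanes:
flats of rank 3 are the closures of the independent triples, i.e. blocks; conversely a block
contains an independent triple and is its closure (`closure_triple`).
-/

set_option autoImplicit false

namespace MP44257e

variable {v k : ℕ} {A : Finset (Finset (Fin v))} {c : Fin v → Fin v → Fin v}

/-- A basis of a set, as a finite set. -/
private theorem O2_basis {M : Matroid (Fin v)} (hE : M.E = Set.univ)
    (hI : ∀ I : Finset (Fin v), M.Indep (I : Set (Fin v)) ↔ Ind A c I) (F : Set (Fin v)) :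
    ∃ I : Finset (Fin v), Ind A c I ∧ (I : Set (Fin v)) ⊆ F ∧
      M.closure (I : Set (Fin v)) = M.closure F ∧ M.eRk F = I.card := by
  classical
  obtain ⟨J, hJ⟩ := M.exists_isBasis F (by rw [hE]; exact Set.subset_univ _)
  have hfin : J.Finite := Set.toFinite J
  refine ⟨hfin.toFinset, ?_, ?_, ?_, ?_⟩
  · rw [← hI, Set.Finite.coe_toFinset]
    exact hJ.indep
  · rw [Set.Finite.coe_toFinset]
    exact hJ.subset
  · rw [Set.Finite.coe_toFinset]
    exact hJ.closure_eq_closure
  · rw [hJ.eRk_eq_encard, ← Set.encard_coe_eq_coe_finsetCard, Set.Finite.coe_toFinset]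

/-- The rank of an independent set. -/
private theorem O2_rk {M : Matroid (Fin v)}
    (hI : ∀ I : Finset (Fin v), M.Indep (I : Set (Fin v)) ↔ Ind A c I) {I : Finset (Fin v)}
    (h : Ind A c I) : M.eRk (I : Set (Fin v)) = I.card := by
  rw [((hI I).2 h).eRk_eq_encard, Set.encard_coe_eq_coe_finsetCard]

theorem pmd_of_des (hk : 6 ≤ k) (hkv : k < v) (hA : IsFam [0, 1, 3] k A) (hc : IsDes A c) :
    ∃ M : Matroid (Fin v), IsPMD 4 (fun i => ([0, 1, 3] ++ [k, v]).getD i 0) M ∧
      IsHyperplanes 4 M A := by
  classical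
  obtain ⟨M, hE, hI⟩ := exists_matroid hk hkv hA hc
  refine ⟨M, ⟨hE, ?_, ?_⟩, ?_⟩
  · -- the rank
    obtain ⟨I, hI4, hind⟩ := exists_ind4 hk hkv hA hc
    rw [← M.eRk_univ_eq, ← closure_four hE hI hind hI4, M.eRk_closure_eq, O2_rk hI hind, hI4]
  · -- the flats
    intro i hi F hF hr
    obtain ⟨I, hind, -, hcl, hrk⟩ := O2_basis hE hI F
    rw [hF.closure] at hcl
    have hcard : I.card = i := by
      rw [hrk] at hr
      exact_mod_cast hr
    rw [← hcl]
    interval_cases i
    · rw [Finset.card_eq_zero] at hcard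
      rw [hcard, Finset.coe_empty, closure_empty' hE hI hc, Set.ncard_empty]
      rfl
    · obtain ⟨x, rfl⟩ := Finset.card_eq_one.1 hcard
      rw [Finset.coe_singleton, closure_single hE hI hc, Set.ncard_singleton]
      rfl
    · obtain ⟨x, y, hxy, rfl⟩ := Finset.card_eq_two.1 hcard
      have h1 : ({x, y, c x y} : Set (Fin v)) = (({x, y, c x y} : Finset (Fin v)) : Set (Fin v)) := by
        rw [Finset.coe_insert, Finset.coe_pair]
      have h2 := hc.1 x y hxy
      rw [Finset.coe_pair, closure_pair' hk hkv hA hE hI hc hxy, h1, Set.ncard_coe_finset,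
        Finset.card_eq_three.2 ⟨x, y, c x y, hxy, h2.1.symm, h2.2.symm, rfl⟩]
      rfl
    · obtain ⟨X, hX, hIX⟩ := exists_block hc hind hcard
      rw [closure_triple hk hkv hA hE hI hc hind hcard hX hIX, Set.ncard_coe_finset, hA.1 X hX]
      rfl
    · rw [closure_four hE hI hind hcard, Set.ncard_univ, Nat.card_eq_fintype_card,
        Fintype.card_fin]
      rfl
  · -- the hyperplanes
    intro X
    constructor
    · intro hX
      obtain ⟨I, hIX, h3, hind⟩ := exists_ind3 hk hkv hA hc hX
      have h1 := closure_triple hk hkv hA hE hI hc hind h3 hX hIX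
      constructor
      · rw [← h1]
        exact M.isFlat_closure _
      · rw [← h1, M.eRk_closure_eq, O2_rk hI hind, h3]
    · rintro ⟨hF, hr⟩
      obtain ⟨I, hind, -, hcl, hrk⟩ := O2_basis hE hI (X : Set (Fin v))
      rw [hF.closure] at hcl
      have hcard : I.card = 3 := by
        rw [hrk] at hr
        exact_mod_cast hr
      obtain ⟨Y, hY, hIY⟩ := exists_block hc hind hcard
      rw [closure_triple hk hkv hA hE hI hc hind hcard hY hIY] at hcl
      rw [← Finset.coe_injective hcl]
      exact hY

end MP44257e
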