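import Pool.Agent.H.MP_44257e_co.UB.Defs

/-!
# The hyperplanes of a PMD with `α = (0, 1, 3, k, v)` form a design

`closure ∅` is a flat of rank 0, so it has 0 points: no loops. `closure {x}` is a flat of rank 1,
so it has one point. For `x ≠ y` then `{x, y}` is independent, `closure {x, y}` is a flat of rank
2, three points: `c x y` is the third. A member `X` of `A` is a flat, so it contains
`closure {x, y}` with `x, y`. For `z` not in `closure {x, y}` the set `{x, y, z}` is independent
of rank 3, its closure is a flat of rank 3; as a finset it is in `A`.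
-/

set_option autoImplicit false

namespace MP44257e

variable {v k : ℕ} {A : Finset (Finset (Fin v))}

private theorem Q1_three {v : ℕ} {S : Set (Fin v)} (h : S.ncard = 3) {x y : Fin v} (hxy : x ≠ y)
    (hx : x ∈ S) (hy : y ∈ S) : ∃ z, z ≠ x ∧ z ≠ y ∧ S = {x, y, z} := by
  have h1 : ({x, y} : Set (Fin v)) ⊆ S := by
    intro a ha
    simp only [Set.mem_insert_iff, Set.mem_singleton_iff] at ha
    rcases ha with rfl | rfl
    · exact hx
    · exact hy
  have h2 : (S \ {x, y}).ncard = 1 := by
    have h3 := Set.ncard_sdiff_add_ncard_of_subset h1 (Set.toFinite _)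
    rw [Set.ncard_pair hxy, h] at h3
    omega
  obtain ⟨z, hz⟩ := Set.ncard_eq_one.1 h2
  have hz1 : z ∈ S \ {x, y} := by
    rw [hz]
    exact Set.mem_singleton z
  have hz2 : z ≠ x ∧ z ≠ y := by
    have h4 := hz1.2
    simp only [Set.mem_insert_iff, Set.mem_singleton_iff, not_or] at h4
    exact h4
  refine ⟨z, hz2.1, hz2.2, ?_⟩
  ext w
  simp only [Set.mem_insert_iff, Set.mem_singleton_iff]
  constructor
  · intro hw
    by_cases h5 : w ∈ ({x, y} : Set (Fin v))
    · simp only [Set.mem_insert_iff, Set.mem_singleton_iff] at h5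
      rcases h5 with h5 | h5
      · exact Or.inl h5
      · exact Or.inr (Or.inl h5)
    · have h6 : w ∈ S \ {x, y} := ⟨hw, h5⟩
      rw [hz] at h6
      exact Or.inr (Or.inr h6)
  · rintro (rfl | rfl | rfl)
    · exact hx
    · exact hy
    · exact hz1.1

theorem des_of_pmd {M : Matroid (Fin v)}
    (hM : IsPMD 4 (fun i => ([0, 1, 3] ++ [k, v]).getD i 0) M) (hH : IsHyperplanes 4 M A) :
    ∃ c : Fin v → Fin v → Fin v, IsDes A c := by
  obtain ⟨hE, -, hF⟩ := hM
  have hmem : ∀ x, x ∈ M.E := fun x => by
    rw [hE]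
    exact Set.mem_univ x
  have hsub : ∀ X : Set (Fin v), X ⊆ M.E := fun X x _ => hmem x
  have r0 : M.closure ∅ = ∅ := by
    have h := hF 0 (by norm_num) (M.closure ∅) (M.isFlat_closure ∅) (by
      rw [M.eRk_closure_eq, M.eRk_empty]
      rfl)
    exact (Set.ncard_eq_zero (Set.toFinite _)).1 h
  have r1 : ∀ x, M.eRk {x} = 1 := by
    intro x
    have h := M.eRk_insert_eq_add_one (e := x) (X := ∅) ⟨hmem x, by
      rw [r0]
      exact Set.notMem_empty x⟩
    rw [M.eRk_empty, zero_add, insert_empty_eq] at h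
    exact h
  have c1 : ∀ x, M.closure {x} = {x} := by
    intro x
    have h : (M.closure {x}).ncard = 1 := hF 1 (by norm_num) (M.closure {x}) (M.isFlat_closure {x}) (by
      rw [M.eRk_closure_eq, r1]
      rfl)
    obtain ⟨z, hz⟩ := Set.ncard_eq_one.1 h
    have hx : x ∈ M.closure {x} := M.subset_closure {x} (hsub _) (Set.mem_singleton x)
    rw [hz] at hx ⊢
    rw [Set.mem_singleton_iff.1 hx]
  have r2 : ∀ x y, x ≠ y → M.eRk {x, y} = 2 := by
    intro x y hxy
    have h := M.eRk_insert_eq_add_one (e := x) (X := {y}) ⟨hmem x, by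
      rw [c1]
      exact hxy⟩
    rw [h, r1]
    norm_num
  have H : ∀ x y, ∃ z, x ≠ y → z ≠ x ∧ z ≠ y ∧ M.closure {x, y} = {x, y, z} := by
    intro x y
    by_cases hxy : x = y
    · exact ⟨x, fun h => absurd hxy h⟩
    · have h : (M.closure {x, y}).ncard = 3 :=
        hF 2 (by norm_num) (M.closure {x, y}) (M.isFlat_closure {x, y}) (by
          rw [M.eRk_closure_eq, r2 x y hxy]
          rfl)
      have hs := M.subset_closure {x, y} (hsub _)
      obtain ⟨z, hz⟩ := Q1_three h hxy (hs (by simp)) (hs (by simp))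
      exact ⟨z, fun _ => hz⟩
  choose c hc using H
  refine ⟨c, fun x y h => ⟨(hc x y h).1, (hc x y h).2.1⟩, ?_, ?_⟩
  · intro X hX x hx y hy hxy
    have hX1 := ((hH X).1 hX).1
    have h1 : c x y ∈ M.closure {x, y} := by
      rw [(hc x y hxy).2.2]
      simp
    have h2 : ({x, y} : Set (Fin v)) ⊆ (X : Set (Fin v)) := by
      intro a ha
      simp only [Set.mem_insert_iff, Set.mem_singleton_iff] at ha
      rcases ha with rfl | rfl
      · exact hx
      · exact hy
    have h3 := M.closure_subset_closure h2 h1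
    rw [hX1.closure] at h3
    exact h3
  · intro x y z hxy hzx hzy hzc
    have hz : z ∉ M.closure {x, y} := by
      rw [(hc x y hxy).2.2]
      simp only [Set.mem_insert_iff, Set.mem_singleton_iff, not_or]
      exact ⟨hzx, hzy, hzc⟩
    have h := M.eRk_insert_eq_add_one (e := z) (X := {x, y}) ⟨hmem z, hz⟩
    rw [r2 x y hxy] at h
    have hs := M.subset_closure (insert z {x, y}) (hsub _)
    have hcoe : (((Set.toFinite (M.closure (insert z {x, y}))).toFinset : Finset (Fin v)) :
        Set (Fin v)) = M.closure (insert z {x, y}) := Set.Finite.coe_toFinset _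
    refine ⟨(Set.toFinite (M.closure (insert z {x, y}))).toFinset, (hH _).2 ?_, ?_, ?_, ?_⟩
    · rw [hcoe]
      refine ⟨M.isFlat_closure _, ?_⟩
      rw [M.eRk_closure_eq, h]
      norm_num
    · rw [Set.Finite.mem_toFinset]
      exact hs (by simp)
    · rw [Set.Finite.mem_toFinset]
      exact hs (by simp)
    · rw [Set.Finite.mem_toFinset]
      exact hs (by simp)

end MP44257e
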