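import Pool.Agent.H.MP_44257e_co.UB.P3
import Pool.Agent.H.MP_44257e_co.UB.K1
import Pool.Agent.H.MP_44257e_co.UB.K2
import Pool.Agent.H.MP_44257e_co.UB.K3
import Pool.Agent.H.MP_44257e_co.UB.O2
import Pool.Agent.H.MP_44257e_co.UB.Q1

/-!
# `N({0,1,3}, k)` is at most `(k-3)^3 + (k-3)^2 + (k-3) - 1`
-/

set_option autoImplicit false

namespace MP44257e

open Finset

theorem bound_013 (n v : ℕ) : bound [0, 1, 3] (n + 3) v =
    ((v : ℚ) / ((n : ℚ) + 3)) * (((v : ℚ) - 1) / ((n : ℚ) + 2)) * (((v : ℚ) - 3) / (n : ℚ)) := by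
  simp only [bound, List.map_cons, List.map_nil, List.prod_cons, List.prod_nil]
  push_cast
  ring_nf

theorem good_013 {n v : ℕ} (hn : 4 ≤ n) (hv : n ^ 3 + n ^ 2 + n ≤ v) :
    Good [0, 1, 3] (n + 3) v := by
  intro A hA
  have hnv : n + 3 < v := by nlinarith [Nat.mul_le_mul hn hn, sq_nonneg n]
  have hT := total hA
  have hconst : ∑ x : Fin v, (v - 1) * (v - 3) = v * ((v - 1) * (v - 3)) := by simp
  have hle : ∀ x : Fin v, (∑ y ∈ univ.erase x, (thr A x y).card) * n ≤ (v - 1) * (v - 3) :=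
    fun x => (point_sum (x := x) hn hA hv).1
  have hsum : A.card * ((n + 3) * (n + 2)) * n ≤ v * ((v - 1) * (v - 3)) := by
    rw [← hT, ← hconst, sum_mul]
    exact sum_le_sum fun x _ => hle x
  have hn0 : (0 : ℚ) < n := by exact_mod_cast (by omega : 0 < n)
  have hv1 : ((v - 1 : ℕ) : ℚ) = (v : ℚ) - 1 := by push_cast [Nat.cast_sub (by omega : 1 ≤ v)]; ring
  have hv3 : ((v - 3 : ℕ) : ℚ) = (v : ℚ) - 3 := by push_cast [Nat.cast_sub (by omega : 3 ≤ v)]; ring
  have hbd : bound [0, 1, 3] (n + 3) v =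
      ((v * ((v - 1) * (v - 3)) : ℕ) : ℚ) / (((n + 3) * (n + 2) * n : ℕ) : ℚ) := by
    rw [bound_013]
    push_cast [hv1, hv3]
    field_simp
  have hpos : (0 : ℚ) < (((n + 3) * (n + 2) * n : ℕ) : ℚ) := by
    exact_mod_cast (by positivity : 0 < (n + 3) * (n + 2) * n)
  refine ⟨?_, ?_, ?_⟩
  · rw [hbd, le_div_iff₀ hpos]
    exact_mod_cast (by linarith [hsum] : A.card * ((n + 3) * (n + 2) * n) ≤
      v * ((v - 1) * (v - 3)))
  · intro heq
    rw [hbd, eq_div_iff hpos.ne'] at heq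
    have heq' : A.card * ((n + 3) * (n + 2) * n) = v * ((v - 1) * (v - 3)) := by
      exact_mod_cast heq
    have h1 : ∑ x : Fin v, (∑ y ∈ univ.erase x, (thr A x y).card) * n =
        ∑ x : Fin v, (v - 1) * (v - 3) := by
      rw [hconst, ← sum_mul, hT, ← heq']
      ring
    have h2 := (sum_eq_sum_iff_of_le fun x _ => hle x).1 h1
    obtain ⟨c, hc⟩ := des_of_sun (by omega) (by omega) hA fun x y hxy =>
      (point_sum (x := x) hn hA hv).2 (h2 x (mem_univ x)) y hxy.symm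
    exact pmd_of_des (by omega) hnv hA hc
  · rintro ⟨M, hM, hH⟩
    obtain ⟨c, hc⟩ := des_of_pmd hM hH
    have h1 : A.card * ((n + 3) * (n + 2)) * n = v * ((v - 1) * (v - 3)) := by
      rw [← hT, ← hconst, sum_mul]
      refine sum_congr rfl fun x _ => ?_
      rw [sum_mul, sum_congr rfl fun y hy =>
        des_thr (by omega) (by omega) hA hc (ne_of_mem_erase hy).symm]
      simp
    rw [hbd, eq_div_iff hpos.ne']
    exact_mod_cast (by linarith [h1] : A.card * ((n + 3) * (n + 2) * n) =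
      v * ((v - 1) * (v - 3)))

theorem threshold_013 {n N : ℕ} (hn : 4 ≤ n) (hN : IsThreshold [0, 1, 3] (n + 3) N) :
    N ≤ n ^ 3 + n ^ 2 + n - 1 :=
  hN.2 fun v hv => good_013 hn (by omega)

end MP44257e
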