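import Pool.Agent.H.MP_44257e_co.UB.Defs

/-!
# Lines, blocks and independent sets of the matroid of a design

`des_symm`, `des_inv`: there are two different blocks through `x, y`: take `z` off
`x, y, c x y` (`v ≥ 4`), a block `X ∋ x, y, z`, then `z' ∉ X` (`k < v`; then `z'` is off
`x, y, c x y ∈ X`), a block `X' ∋ x, y, z'`. `X ∩ X'` has three points (`inter_three`) and contains
`x`, `y`, `c x y`, `c y x`, `c x (c x y)`.

`exists_block`: third part of `IsDes`. `block_unique`: `no_four` for `x, y, z, c x y`.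

`ind_aug`: cases `I.card = 0, 1`: a pair is independent (`c x y ≠ x, y`). `I.card = 2`, `I = {x, y}`:
`J` has three points not on a line, so some `e ∈ J` is not in `{x, y, c x y}` (use `des_symm`,
`des_inv`), and then `{x, y, e}` is independent. `I.card = 3`: let `X` be the block of `I`;
`J.card = 4` so there is `e ∈ J`, `e ∉ X`; `insert e I`: `c` of two points of `I` is in `X`, so is
not `e`; `c e a = b` with `a, b ∈ I` would give `e = c a b ∈ X`; no block contains
`insert e I` by `block_unique`.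
-/

set_option autoImplicit false

namespace MP44257e

variable {v k : ℕ} {A : Finset (Finset (Fin v))} {c : Fin v → Fin v → Fin v}

private theorem M1_new (S : Finset (Fin v)) (hS : S.card < v) : ∃ z, z ∉ S := by
  by_contra h
  push Not at h
  have h1 : (Finset.univ : Finset (Fin v)) ⊆ S := fun a _ => h a
  have h2 := Finset.card_le_card h1
  rw [Finset.card_univ, Fintype.card_fin] at h2
  omega

private theorem M1_two (hk : 6 ≤ k) (hkv : k < v) (hA : IsFam [0, 1, 3] k A) (hc : IsDes A c)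
    {x y : Fin v} (hxy : x ≠ y) : ∃ X ∈ A, ∃ Y ∈ A, X ≠ Y ∧ x ∈ X ∧ y ∈ X ∧ x ∈ Y ∧ y ∈ Y := by
  obtain ⟨z, hz⟩ := M1_new ({x, y, c x y} : Finset (Fin v))
    (lt_of_le_of_lt Finset.card_le_three (by omega))
  simp only [Finset.mem_insert, Finset.mem_singleton, not_or] at hz
  obtain ⟨X, hX, h1, h2, h3⟩ := hc.2.2 x y z hxy hz.1 hz.2.1 hz.2.2
  obtain ⟨w, hw⟩ := M1_new X (by
    rw [hA.1 X hX]
    exact hkv)
  have hcX : c x y ∈ X := hc.2.1 X hX x h1 y h2 hxy
  obtain ⟨Y, hY, g1, g2, g3⟩ := hc.2.2 x y w hxy (fun h => hw (h ▸ h1)) (fun h => hw (h ▸ h2))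
    (fun h => hw (h ▸ hcX))
  exact ⟨X, hX, Y, hY, fun h => hw (h ▸ g3), h1, h2, g1, g2⟩

private theorem M1_four {S : Finset (Fin v)} (hS : S.card = 3) {a b d e : Fin v} (ha : a ∈ S)
    (hb : b ∈ S) (hd : d ∈ S) (he : e ∈ S) (hab : a ≠ b) (had : a ≠ d) (hbd : b ≠ d)
    (hae : a ≠ e) (hbe : b ≠ e) : d = e := by
  by_contra hde
  have h1 : ({a, b, d, e} : Finset (Fin v)) ⊆ S := by
    intro t ht
    simp only [Finset.mem_insert, Finset.mem_singleton] at ht
    rcases ht with rfl | rfl | rfl | rfl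
    · exact ha
    · exact hb
    · exact hd
    · exact he
  have h2 : ({a, b, d, e} : Finset (Fin v)).card = 4 := by
    rw [Finset.card_insert_of_notMem, Finset.card_insert_of_notMem, Finset.card_pair hde]
    · simp only [Finset.mem_insert, Finset.mem_singleton, not_or]
      exact ⟨hbd, hbe⟩
    · simp only [Finset.mem_insert, Finset.mem_singleton, not_or]
      exact ⟨hab, had, hae⟩
  have h3 := Finset.card_le_card h1
  omega

theorem des_symm (hk : 6 ≤ k) (hkv : k < v) (hA : IsFam [0, 1, 3] k A) (hc : IsDes A c)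
    {x y : Fin v} (hxy : x ≠ y) : c x y = c y x := by
  obtain ⟨X, hX, Y, hY, hne, h1, h2, h3, h4⟩ := M1_two hk hkv hA hc hxy
  have h5 := inter_three hA hX hY hne hxy h1 h2 h3 h4
  have g1 := hc.1 x y hxy
  have g2 := hc.1 y x hxy.symm
  exact M1_four h5 (Finset.mem_inter.2 ⟨h1, h3⟩) (Finset.mem_inter.2 ⟨h2, h4⟩)
    (Finset.mem_inter.2 ⟨hc.2.1 X hX x h1 y h2 hxy, hc.2.1 Y hY x h3 y h4 hxy⟩)
    (Finset.mem_inter.2 ⟨hc.2.1 X hX y h2 x h1 hxy.symm, hc.2.1 Y hY y h4 x h3 hxy.symm⟩)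
    hxy g1.1.symm g1.2.symm g2.2.symm g2.1.symm

theorem des_inv (hk : 6 ≤ k) (hkv : k < v) (hA : IsFam [0, 1, 3] k A) (hc : IsDes A c)
    {x y : Fin v} (hxy : x ≠ y) : c x (c x y) = y := by
  obtain ⟨X, hX, Y, hY, hne, h1, h2, h3, h4⟩ := M1_two hk hkv hA hc hxy
  have h5 := inter_three hA hX hY hne hxy h1 h2 h3 h4
  have g1 := hc.1 x y hxy
  have g2 := hc.1 x (c x y) g1.1.symm
  have c1 := hc.2.1 X hX x h1 y h2 hxy
  have c2 := hc.2.1 Y hY x h3 y h4 hxy
  have d1 := hc.2.1 X hX x h1 (c x y) c1 g1.1.symm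
  have d2 := hc.2.1 Y hY x h3 (c x y) c2 g1.1.symm
  exact (M1_four h5 (Finset.mem_inter.2 ⟨h1, h3⟩) (Finset.mem_inter.2 ⟨c1, c2⟩)
    (Finset.mem_inter.2 ⟨h2, h4⟩) (Finset.mem_inter.2 ⟨d1, d2⟩)
    g1.1.symm hxy g1.2 g2.1.symm g2.2.symm).symm

end MP44257e
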