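import Pool.Agent.H.MP_44257e_co.UB.Defs

/-!
# Lines, blocks and independent sets of the matroid of a design

`des_symm`, `des_inv`: there are two different blocks through `x, y`: take `z` off
`x, y, c x y` (`v ≥ 4`), a block `X ∋ x, y, z`, then `z' ∉ X` (`k < v`; then `z'` is off
`x, y, c x y ∈ X`), a block `X' ∋ x, y, z'`. `X ∩ X'` has three points (`inter_three`) and contains
`x`, `y`, `c x y`, `c y x`, `c x (c x y)`.

`exists_block`: third part of `IsDes`. `block_unique`: `no_four` for `x, y, z, c x y`.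

`ind_aug`: cases `I.card = 0, 1`: a pair is independent (`c x y ≠ x, y`). `I.card = 2`, `I = {x, y}`:
`J` has three points not on a line, so some `e ∈ J` is not in `{x, y, c x y}` (use `des_symm`,
`des_inv`), and then `{x, y, e}` is independent. `I.card = 3`: let `X` be the block of `I`;
`J.card = 4` so there is `e ∈ J`, `e ∉ X`; `insert e I`: `c` of two points of `I` is in `X`, so is
not `e`; `c e a = b` with `a, b ∈ I` would give `e = c a b ∈ X`; no block contains
`insert e I` by `block_unique`.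
-/

set_option autoImplicit false

namespace MP44257e

/-- The independent sets of the matroid of a design. -/
def Ind {v : ℕ} (A : Finset (Finset (Fin v))) (c : Fin v → Fin v → Fin v) (I : Finset (Fin v)) : Prop :=
  I.card ≤ 4 ∧ (∀ x ∈ I, ∀ y ∈ I, x ≠ y → c x y ∉ I) ∧ (I.card = 4 → ∀ X ∈ A, ¬ I ⊆ X)

variable {v k : ℕ} {A : Finset (Finset (Fin v))} {c : Fin v → Fin v → Fin v}

theorem exists_block (hc : IsDes A c) {I : Finset (Fin v)} (hI : Ind A c I) (h3 : I.card = 3) :
    ∃ X ∈ A, I ⊆ X := by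
  obtain ⟨x, y, z, hxy, hxz, hyz, rfl⟩ := Finset.card_eq_three.1 h3
  have h1 : c x y ∉ ({x, y, z} : Finset (Fin v)) :=
    hI.2.1 x (by simp) y (by simp) hxy
  have h2 : z ≠ c x y := by
    rintro rfl
    exact h1 (by simp)
  obtain ⟨X, hX, h4, h5, h6⟩ := hc.2.2 x y z hxy hxz.symm hyz.symm h2
  refine ⟨X, hX, ?_⟩
  intro a ha
  simp only [Finset.mem_insert, Finset.mem_singleton] at ha
  rcases ha with rfl | rfl | rfl
  · exact h4
  · exact h5
  · exact h6

theorem block_unique (hA : IsFam [0, 1, 3] k A) (hc : IsDes A c) {I : Finset (Fin v)}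
    (hI : Ind A c I) (h3 : I.card = 3) {X Y : Finset (Fin v)} (hX : X ∈ A) (hY : Y ∈ A)
    (h1 : I ⊆ X) (h2 : I ⊆ Y) : X = Y := by
  obtain ⟨x, y, z, hxy, hxz, hyz, rfl⟩ := Finset.card_eq_three.1 h3
  have h4 : c x y ∉ ({x, y, z} : Finset (Fin v)) :=
    hI.2.1 x (by simp) y (by simp) hxy
  refine no_four hA hX hY (S := insert (c x y) {x, y, z}) ?_ ?_ ?_
  · rw [Finset.card_insert_of_notMem h4, h3]
  · exact Finset.insert_subset (hc.2.1 X hX x (h1 (by simp)) y (h1 (by simp)) hxy) h1
  · exact Finset.insert_subset (hc.2.1 Y hY x (h2 (by simp)) y (h2 (by simp)) hxy) h2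

theorem ind_subset {I J : Finset (Fin v)} (hJ : Ind A c J) (h : I ⊆ J) : Ind A c I := by
  obtain ⟨h1, h2, h3⟩ := hJ
  have h4 := Finset.card_le_card h
  refine ⟨h4.trans h1, fun x hx y hy hxy hc => h2 x (h hx) y (h hy) hxy (h hc), ?_⟩
  intro h5
  have h6 : I = J := Finset.eq_of_subset_of_card_le h (by omega)
  subst h6
  exact h3 h5

theorem ind_pair (hc : IsDes A c) (x y : Fin v) : Ind A c {x, y} := by
  have h1 : ({x, y} : Finset (Fin v)).card ≤ 2 := Finset.card_le_two
  refine ⟨by omega, ?_, fun h => by omega⟩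
  intro a ha b hb hab hcab
  obtain ⟨h2, h3⟩ := hc.1 a b hab
  simp only [Finset.mem_insert, Finset.mem_singleton] at ha hb hcab
  rcases ha with rfl | rfl <;> rcases hb with rfl | rfl
  · exact hab rfl
  · rcases hcab with h | h
    · exact h2 h
    · exact h3 h
  · rcases hcab with h | h
    · exact h3 h
    · exact h2 h
  · exact hab rfl

end MP44257e
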