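import Pool.Agent.H.MP_44257e_co.UB.M1
import Pool.Agent.H.MP_44257e_co.UB.M2

/-!
# Lines, blocks and independent sets of the matroid of a design

`des_symm`, `des_inv`: there are two different blocks through `x, y`: take `z` off
`x, y, c x y` (`v ≥ 4`), a block `X ∋ x, y, z`, then `z' ∉ X` (`k < v`; then `z'` is off
`x, y, c x y ∈ X`), a block `X' ∋ x, y, z'`. `X ∩ X'` has three points (`inter_three`) and contains
`x`, `y`, `c x y`, `c y x`, `c x (c x y)`.

`exists_block`: third part of `IsDes`. `block_unique`: `no_four` for `x, y, z, c x y`.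

`ind_aug`: cases `I.card = 0, 1`: a pair is independent (`c x y ≠ x, y`). `I.card = 2`, `I = {x, y}`:
`J` has three points not on a line, so some `e ∈ J` is not in `{x, y, c x y}` (use `des_symm`,
`des_inv`), and then `{x, y, e}` is independent. `I.card = 3`: let `X` be the block of `I`;
`J.card = 4` so there is `e ∈ J`, `e ∉ X`; `insert e I`: `c` of two points of `I` is in `X`, so is
not `e`; `c e a = b` with `a, b ∈ I` would give `e = c a b ∈ X`; no block contains
`insert e I` by `block_unique`.
-/

set_option autoImplicit false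

namespace MP44257e

variable {v k : ℕ} {A : Finset (Finset (Fin v))} {c : Fin v → Fin v → Fin v}

private theorem M3_key (hk : 6 ≤ k) (hkv : k < v) (hA : IsFam [0, 1, 3] k A) (hc : IsDes A c)
    {I : Finset (Fin v)} (hI : Ind A c I) {e : Fin v} (he : e ∉ I)
    (h : ∀ a ∈ I, ∀ b ∈ I, a ≠ b → c a b ≠ e) :
    ∀ x ∈ insert e I, ∀ y ∈ insert e I, x ≠ y → c x y ∉ insert e I := by
  have key : ∀ b ∈ I, c b e ∉ insert e I := by
    intro b hb h1
    have hbe : b ≠ e := fun h2 => he (h2 ▸ hb)
    have h2 := hc.1 b e hbe
    rw [Finset.mem_insert] at h1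
    rcases h1 with h1 | h1
    · exact h2.2 h1
    · have h3 := des_inv hk hkv hA hc hbe
      exact h b hb (c b e) h1 (Ne.symm h2.1) h3
  intro x hx y hy hxy
  rw [Finset.mem_insert] at hx hy
  rcases hx with rfl | hx
  · rcases hy with rfl | hy
    · exact absurd rfl hxy
    · rw [des_symm hk hkv hA hc hxy]
      exact key y hy
  · rcases hy with rfl | hy
    · exact key x hx
    · intro h1
      rw [Finset.mem_insert] at h1
      rcases h1 with h1 | h1
      · exact h x hx y hy hxy h1
      · exact hI.2.1 x hx y hy hxy h1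

theorem ind_aug (hk : 6 ≤ k) (hkv : k < v) (hA : IsFam [0, 1, 3] k A) (hc : IsDes A c)
    {I J : Finset (Fin v)} (hI : Ind A c I) (hJ : Ind A c J) (h : I.card < J.card) :
    ∃ e ∈ J, e ∉ I ∧ Ind A c (insert e I) := by
  have hJ4 := hJ.1
  rcases Nat.lt_or_ge I.card 2 with h2 | h2
  · obtain ⟨e, heJ, heI⟩ : ∃ e ∈ J, e ∉ I := by
      by_contra h3
      push Not at h3
      exact absurd (Finset.card_le_card h3) (not_le.2 h)
    refine ⟨e, heJ, heI, ?_⟩
    have h4 : I.card = 0 ∨ I.card = 1 := by omega
    rcases h4 with h4 | h4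
    · rw [Finset.card_eq_zero] at h4
      subst h4
      have h5 := ind_pair hc e e
      rw [Finset.pair_eq_singleton] at h5
      exact h5
    · obtain ⟨x, rfl⟩ := Finset.card_eq_one.1 h4
      exact ind_pair hc e x
  · have h4 : I.card = 2 ∨ I.card = 3 := by omega
    rcases h4 with h4 | h4
    · obtain ⟨x, y, hxy, rfl⟩ := Finset.card_eq_two.1 h4
      obtain ⟨e, heJ, heI⟩ : ∃ e ∈ J, e ∉ ({x, y, c x y} : Finset (Fin v)) := by
        by_contra h3
        push Not at h3
        have h5 : J = {x, y, c x y} := Finset.eq_of_subset_of_card_le h3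
          (Finset.card_le_three.trans (by omega))
        have h6 := hJ.2.1 x (by rw [h5]; simp) y (by rw [h5]; simp) hxy
        exact h6 (by rw [h5]; simp)
      simp only [Finset.mem_insert, Finset.mem_singleton, not_or] at heI
      have he2 : e ∉ ({x, y} : Finset (Fin v)) := by
        simp only [Finset.mem_insert, Finset.mem_singleton, not_or]
        exact ⟨heI.1, heI.2.1⟩
      refine ⟨e, heJ, he2, ?_, ?_, ?_⟩
      · rw [Finset.card_insert_of_notMem he2]
        omega
      · refine M3_key hk hkv hA hc hI he2 ?_
        intro a ha b hb hab h5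
        simp only [Finset.mem_insert, Finset.mem_singleton] at ha hb
        rcases ha with rfl | rfl <;> rcases hb with rfl | rfl
        · exact hab rfl
        · exact heI.2.2 h5.symm
        · rw [des_symm hk hkv hA hc hab] at h5
          exact heI.2.2 h5.symm
        · exact hab rfl
      · intro h5
        rw [Finset.card_insert_of_notMem he2] at h5
        omega
    · obtain ⟨X, hX, hIX⟩ := exists_block hc hI h4
      obtain ⟨e, heJ, heX⟩ : ∃ e ∈ J, e ∉ X := by
        by_contra h3
        push Not at h3
        exact hJ.2.2 (by omega) X hX h3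
      have heI : e ∉ I := fun h5 => heX (hIX h5)
      refine ⟨e, heJ, heI, ?_, ?_, ?_⟩
      · rw [Finset.card_insert_of_notMem heI]
        omega
      · refine M3_key hk hkv hA hc hI heI ?_
        intro a ha b hb hab h5
        exact heX (h5 ▸ hc.2.1 X hX a (hIX ha) b (hIX hb) hab)
      · intro _ Y hY h6
        have h7 : I ⊆ Y := (Finset.subset_insert _ _).trans h6
        have h8 := block_unique hA hc hI h4 hX hY hIX h7
        exact heX (h8 ▸ h6 (Finset.mem_insert_self _ _))

end MP44257e
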