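import Pool.Agent.H.MP_44257e_co.UB.M3

/-!
# The matroid of a design is a PMD with the blocks as hyperplanes

`exists_ind4`: a block `X` (exists) contains an independent triple: `x ≠ y` in `X`, `z ∈ X` off
`x, y, c x y` (`k ≥ 6`), and a point outside `X` (`k < v`) gives an independent quadruple
(e.g. by `ind_aug`-like arguments or directly).

`pmd_of_des`: a flat `F` of rank `i` has a basis `I` (`Finset` of `i` points, `Ind`), and
`F = closure I` (`IsFlat.closure`, `IsBasis.closure_eq_closure`); then Mat2. Hyperplanes: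
flats of rank 3 are the closures of the independent triples, i.e. blocks; conversely a block
contains an independent triple and is its closure (`closure_triple`).
-/

set_option autoImplicit false

namespace MP44257e

variable {v k : ℕ} {A : Finset (Finset (Fin v))} {c : Fin v → Fin v → Fin v}

private theorem O1_ex {S T : Finset (Fin v)} (h : T.card < S.card) : ∃ z ∈ S, z ∉ T :=
  Finset.exists_mem_notMem_of_card_lt_card h

theorem exists_ind3 (hk : 6 ≤ k) (hkv : k < v) (hA : IsFam [0, 1, 3] k A) (hc : IsDes A c)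
    {X : Finset (Fin v)} (hX : X ∈ A) : ∃ I ⊆ X, I.card = 3 ∧ Ind A c I := by
  have hXk : X.card = k := hA.1 X hX
  obtain ⟨x, hx, y, hy, hxy⟩ := Finset.one_lt_card.1 (show 1 < X.card by omega)
  have h3 : ({x, y, c x y} : Finset (Fin v)).card ≤ 3 := Finset.card_le_three
  obtain ⟨z, hz, hz'⟩ := O1_ex (S := X) (T := {x, y, c x y}) (by omega)
  simp only [Finset.mem_insert, Finset.mem_singleton, not_or] at hz'
  obtain ⟨hzx, hzy, hzc⟩ := hz'
  have sy : ∀ a b, a ≠ b → c a b = c b a := fun a b h => des_symm hk hkv hA hc h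
  have iv : ∀ a b, a ≠ b → c a (c a b) = b := fun a b h => des_inv hk hkv hA hc h
  have nn := hc.1
  have e1 : c x z ≠ y := by
    intro h
    have h1 := iv x z (Ne.symm hzx)
    rw [h] at h1
    exact hzc h1.symm
  have e2 : c y z ≠ x := by
    intro h
    have h1 := iv y z (Ne.symm hzy)
    rw [h, ← sy x y hxy] at h1
    exact hzc h1.symm
  have hcard : ({x, y, z} : Finset (Fin v)).card = 3 :=
    Finset.card_eq_three.2 ⟨x, y, z, hxy, Ne.symm hzx, Ne.symm hzy, rfl⟩
  have p1 : c x y ∉ ({x, y, z} : Finset (Fin v)) := by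
    simp only [Finset.mem_insert, Finset.mem_singleton, not_or]
    exact ⟨(nn x y hxy).1, (nn x y hxy).2, Ne.symm hzc⟩
  have p2 : c x z ∉ ({x, y, z} : Finset (Fin v)) := by
    simp only [Finset.mem_insert, Finset.mem_singleton, not_or]
    exact ⟨(nn x z (Ne.symm hzx)).1, e1, (nn x z (Ne.symm hzx)).2⟩
  have p3 : c y z ∉ ({x, y, z} : Finset (Fin v)) := by
    simp only [Finset.mem_insert, Finset.mem_singleton, not_or]
    exact ⟨e2, (nn y z (Ne.symm hzy)).1, (nn y z (Ne.symm hzy)).2⟩
  refine ⟨{x, y, z}, ?_, hcard, by omega, ?_, fun h => by omega⟩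
  · intro a ha
    simp only [Finset.mem_insert, Finset.mem_singleton] at ha
    rcases ha with rfl | rfl | rfl <;> assumption
  · intro a ha b hb hab
    have ha' := ha
    have hb' := hb
    rw [Finset.mem_insert, Finset.mem_insert, Finset.mem_singleton] at ha' hb'
    rcases ha' with ha' | ha' | ha' <;> rcases hb' with hb' | hb' | hb'
    · exact absurd (ha'.trans hb'.symm) hab
    · rw [ha', hb']
      exact p1
    · rw [ha', hb']
      exact p2
    · rw [ha', hb', ← sy x y hxy]
      exact p1
    · exact absurd (ha'.trans hb'.symm) hab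
    · rw [ha', hb']
      exact p3
    · rw [ha', hb', sy z x hzx]
      exact p2
    · rw [ha', hb', sy z y hzy]
      exact p3
    · exact absurd (ha'.trans hb'.symm) hab

theorem exists_ind4 (hk : 6 ≤ k) (hkv : k < v) (hA : IsFam [0, 1, 3] k A) (hc : IsDes A c) :
    ∃ I : Finset (Fin v), I.card = 4 ∧ Ind A c I := by
  have sy : ∀ a b, a ≠ b → c a b = c b a := fun a b h => des_symm hk hkv hA hc h
  have iv : ∀ a b, a ≠ b → c a (c a b) = b := fun a b h => des_inv hk hkv hA hc h
  have nn := hc.1
  have hu : (Finset.univ : Finset (Fin v)).card = v := by simp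
  obtain ⟨X, hX⟩ : ∃ X, X ∈ A := by
    obtain ⟨x, -, y, -, hxy⟩ := Finset.one_lt_card.1
      (show 1 < (Finset.univ : Finset (Fin v)).card by omega)
    have h3 : ({x, y, c x y} : Finset (Fin v)).card ≤ 3 := Finset.card_le_three
    obtain ⟨z, -, hz'⟩ := O1_ex (S := Finset.univ) (T := {x, y, c x y}) (by omega)
    simp only [Finset.mem_insert, Finset.mem_singleton, not_or] at hz'
    obtain ⟨X, hX, -⟩ := hc.2.2 x y z hxy hz'.1 hz'.2.1 hz'.2.2
    exact ⟨X, hX⟩
  obtain ⟨I, hIX, hI3, hI⟩ := exists_ind3 hk hkv hA hc hX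
  have hXk : X.card = k := hA.1 X hX
  obtain ⟨p, -, hp⟩ := O1_ex (S := Finset.univ) (T := X) (by omega)
  have hpI : p ∉ I := fun h => hp (hIX h)
  have hcard : (insert p I).card = 4 := by
    rw [Finset.card_insert_of_notMem hpI, hI3]
  have key : ∀ a ∈ I, c a p ∉ insert p I := by
    intro a ha h
    have hap : a ≠ p := fun h => hpI (h ▸ ha)
    rcases Finset.mem_insert.1 h with h | h
    · exact (nn a p hap).2 h
    · have h1 := iv a p hap
      have h2 := hc.2.1 X hX a (hIX ha) (c a p) (hIX h) (Ne.symm (nn a p hap).1)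
      rw [h1] at h2
      exact hp h2
  refine ⟨insert p I, hcard, by omega, ?_, fun _ Y hY hJY => ?_⟩
  · intro a ha b hb hab
    rcases Finset.mem_insert.1 ha with ha' | ha' <;> rcases Finset.mem_insert.1 hb with hb' | hb'
    · exact absurd (ha'.trans hb'.symm) hab
    · have hbp : b ≠ p := fun h => hpI (h ▸ hb')
      rw [ha', sy p b (Ne.symm hbp)]
      exact key b hb'
    · rw [hb']
      exact key a ha'
    · intro h
      rcases Finset.mem_insert.1 h with h | h
      · have h2 := hc.2.1 X hX a (hIX ha') b (hIX hb') hab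
        rw [h] at h2
        exact hp h2
      · exact hI.2.1 a ha' b hb' hab h
  · have h1 : X = Y := block_unique hA hc hI hI3 hX hY hIX
      ((Finset.subset_insert p I).trans hJY)
    exact hp (h1 ▸ hJY (Finset.mem_insert_self p I))

end MP44257e
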