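import Pool.Agent.H.MP_44257e_co.UB.Defs

/-!
# The sum of the degrees of the pairs at a point (k = n + 3, M = n ^ 2 + n + 1)

`point_bad`: let `m = (Zx n A x).card = s * (M + 1)`, `1 ≤ s` (`card_Zx`); `x ∉ Zx`, so
`m ≤ v - 1` and `s ≤ n - 1`. Points `y ∈ Zx`: degree at most `M` (`thr_le`; if `Sun`: `sun_le`
with `W = univ` gives `degree * n ≤ v - 3 ≤ n * M`). Points `y ∉ Zx`, `y ≠ x`: not bad
(`not_bad_of_not_mem`); if not `Sun`, then the degree is at most `n ^ 2 + n - 1 = M - 2`, and if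
moreover `v - m < n ^ 2 + n + 3` it is at most `n ^ 2` (else `card_Yu_eq` and `Yu_out`
contradict); if `Sun`, `sun_le` with `W = (Zx n A x)ᶜ` gives `degree * n ≤ v - m - 3`.
So `∑ ≤ m * M + (v - 1 - m) * (M - 2)`, and for `s = n - 1` (then `v - m ≤ n ^ 2 + 5`) even
`∑ ≤ m * M + (v - 1 - m) * n ^ 2`. With `v = n * M + j`, `j ≤ 3`, `n ≥ 4`, this gives the strict
inequality: s ≤ n - 2: `(M-2)(v-1) + 2(n-2)(M+1) < (v-1)(v-3)/n`;
s = n - 1: `(n-1)(M+1)M + (n^2+1+j) n^2 < (v-1)(v-3)/n`.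

`point_sum`: if every `y ≠ x` has `degree * n ≤ v - 3`, strictly if not `Sun`, sum up. This is so
if there is no bad `y` (not `Sun` gives degree `≤ n ^ 2 + n - 1`), and if
`n ^ 3 + n ^ 2 + n + 3 < v` (`thr_le`). Else `point_bad`.
-/

set_option autoImplicit false

namespace MP44257e



/-- The arithmetic, case `s ≤ n - 2`. -/
theorem arith1 {n v s j : ℕ} (hn : 4 ≤ n) (hj : j ≤ 3) (hv : v = n * (n ^ 2 + n + 1) + j)
    (hs : s + 2 ≤ n) :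
    (s * (n ^ 2 + n + 2) * (n ^ 2 + n + 1) +
      (v - 1 - s * (n ^ 2 + n + 2)) * (n ^ 2 + n - 1)) * n < (v - 1) * (v - 3) := by
  obtain ⟨b, rfl⟩ := Nat.exists_eq_add_of_le hs
  have h0 : 4 ≤ s + 2 + b := hn
  have hn2 : 16 ≤ (s + 2 + b) ^ 2 := by nlinarith
  have hv1 : s * ((s + 2 + b) ^ 2 + (s + 2 + b) + 2) + 1 ≤ v := by
    rw [hv]
    nlinarith [Nat.zero_le j, Nat.zero_le (b * (s + 2 + b) ^ 2), Nat.zero_le (b * (s + 2 + b))]
  have hv3 : 3 ≤ v := by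
    rw [hv]
    nlinarith
  have h1 : s * ((s + 2 + b) ^ 2 + (s + 2 + b) + 2) ≤ v - 1 := by omega
  have h2 : 1 ≤ (s + 2 + b) ^ 2 + (s + 2 + b) := by omega
  zify [h1, h2, hv3, show 1 ≤ v by omega]
  have hv' : (v : ℤ) = ((s : ℤ) + 2 + b) * (((s : ℤ) + 2 + b) ^ 2 + ((s : ℤ) + 2 + b) + 1) + j := by
    rw [hv]
    push_cast
    ring
  have hj' : (0 : ℤ) ≤ j := Int.natCast_nonneg j
  have hb' : (0 : ℤ) ≤ b := Int.natCast_nonneg b
  have hs' : (0 : ℤ) ≤ s := Int.natCast_nonneg s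
  have hn' : (4 : ℤ) ≤ (s : ℤ) + 2 + b := by exact_mod_cast h0
  obtain ⟨N, hN⟩ : ∃ N : ℤ, N = (s : ℤ) + 2 + b := ⟨_, rfl⟩
  rw [← hN] at hv' hn' ⊢
  have hsN : (s : ℤ) = N - 2 - b := by linarith
  have key : ((v : ℤ) - 1) * (v - 3) - (s * (N ^ 2 + N + 2) * (N ^ 2 + N + 1) +
      (v - 1 - s * (N ^ 2 + N + 2)) * (N ^ 2 + N - 1)) * N =
      (v - 1) * (2 * N + j - 3) - 2 * s * (N ^ 2 + N + 2) * N := by
    rw [hv']
    ring
  have a1 : 2 * (s : ℤ) * (N ^ 2 + N + 2) * N ≤ 2 * (N - 2) * (N ^ 2 + N + 2) * N := by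
    have : (0 : ℤ) ≤ b * ((N ^ 2 + N + 2) * N) := by positivity
    rw [hsN]
    nlinarith
  have a2 : (N * (N ^ 2 + N + 1) - 1) * (2 * N - 3) ≤ ((v : ℤ) - 1) * (2 * N + j - 3) := by
    have p1 : (0 : ℤ) ≤ 2 * N - 3 := by linarith
    have p2 : (0 : ℤ) ≤ (v : ℤ) - 1 := by
      have : (3 : ℤ) ≤ v := by exact_mod_cast hv3
      linarith
    calc (N * (N ^ 2 + N + 1) - 1) * (2 * N - 3) ≤ ((v : ℤ) - 1) * (2 * N - 3) :=
          mul_le_mul_of_nonneg_right (by rw [hv']; linarith) p1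
      _ ≤ ((v : ℤ) - 1) * (2 * N + j - 3) := mul_le_mul_of_nonneg_left (by linarith) p2
  have a3 : 2 * (N - 2) * (N ^ 2 + N + 2) * N < (N * (N ^ 2 + N + 1) - 1) * (2 * N - 3) := by
    obtain ⟨c, rfl⟩ : ∃ c : ℤ, N = c + 4 := ⟨N - 4, by ring⟩
    have hc : 0 ≤ c := by linarith
    rw [← sub_pos]
    ring_nf
    positivity
  linarith

/-- The arithmetic, case `s = n - 1`. -/
theorem arith2 {n v s j : ℕ} (hn : 4 ≤ n) (hj : j ≤ 3) (hv : v = n * (n ^ 2 + n + 1) + j)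
    (hs : s + 1 = n) :
    (s * (n ^ 2 + n + 2) * (n ^ 2 + n + 1) +
      (v - 1 - s * (n ^ 2 + n + 2)) * n ^ 2) * n < (v - 1) * (v - 3) := by
  obtain ⟨c, rfl⟩ := Nat.exists_eq_add_of_le hn
  have hs' : s = c + 3 := by omega
  subst hs'
  have e1 : v - 1 - (c + 3) * ((4 + c) ^ 2 + (4 + c) + 2) = (4 + c) ^ 2 + 1 + j := by
    have : v = (c + 3) * ((4 + c) ^ 2 + (4 + c) + 2) + ((4 + c) ^ 2 + 1 + j) + 1 := by
      rw [hv]
      ring
    omega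
  rw [e1]
  obtain ⟨u, hu⟩ : ∃ u, v = u + 3 := by
    refine ⟨v - 3, ?_⟩
    have : 3 ≤ v := by
      rw [hv]
      nlinarith
    omega
  have e2 : v - 1 = u + 2 := by omega
  have e3 : v - 3 = u := by omega
  rw [e2, e3]
  have hu' : (u : ℤ) = (4 + c) * ((4 + c) ^ 2 + (4 + c) + 1) + j - 3 := by
    have h1 : ((u + 3 : ℕ) : ℤ) = (((4 + c) * ((4 + c) ^ 2 + (4 + c) + 1) + j : ℕ) : ℤ) := by
      rw [← hu, hv]
    push_cast at h1
    linarith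
  zify
  rw [hu', ← sub_pos]
  interval_cases j <;> (push_cast; ring_nf; positivity)

end MP44257e
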