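import Pool.Agent.H.MP_44257e_co.UB.P1
import Pool.Agent.H.MP_44257e_co.UB.C2
import Pool.Agent.H.MP_44257e_co.UB.B4

/-!
# The sum of the degrees of the pairs at a point (k = n + 3, M = n ^ 2 + n + 1)

`point_bad`: let `m = (Zx n A x).card = s * (M + 1)`, `1 ≤ s` (`card_Zx`); `x ∉ Zx`, so
`m ≤ v - 1` and `s ≤ n - 1`. Points `y ∈ Zx`: degree at most `M` (`thr_le`; if `Sun`: `sun_le`
with `W = univ` gives `degree * n ≤ v - 3 ≤ n * M`). Points `y ∉ Zx`, `y ≠ x`: not bad
(`not_bad_of_not_mem`); if not `Sun`, then the degree is at most `n ^ 2 + n - 1 = M - 2`, and if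
moreover `v - m < n ^ 2 + n + 3` it is at most `n ^ 2` (else `card_Yu_eq` and `Yu_out`
contradict); if `Sun`, `sun_le` with `W = (Zx n A x)ᶜ` gives `degree * n ≤ v - m - 3`.
So `∑ ≤ m * M + (v - 1 - m) * (M - 2)`, and for `s = n - 1` (then `v - m ≤ n ^ 2 + 5`) even
`∑ ≤ m * M + (v - 1 - m) * n ^ 2`. With `v = n * M + j`, `j ≤ 3`, `n ≥ 4`, this gives the strict
inequality: s ≤ n - 2: `(M-2)(v-1) + 2(n-2)(M+1) < (v-1)(v-3)/n`;
s = n - 1: `(n-1)(M+1)M + (n^2+1+j) n^2 < (v-1)(v-3)/n`.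

`point_sum`: if every `y ≠ x` has `degree * n ≤ v - 3`, strictly if not `Sun`, sum up. This is so
if there is no bad `y` (not `Sun` gives degree `≤ n ^ 2 + n - 1`), and if
`n ^ 3 + n ^ 2 + n + 3 < v` (`thr_le`). Else `point_bad`.
-/

set_option autoImplicit false

namespace MP44257e

variable {v n : ℕ} {A : Finset (Finset (Fin v))} {x : Fin v}

theorem point_bad (hn : 4 ≤ n) (hA : IsFam [0, 1, 3] (n + 3) A)
    (hv : n ^ 3 + n ^ 2 + n ≤ v) (hv' : v ≤ n ^ 3 + n ^ 2 + n + 3)
    (h : ∃ y, Bad n A x y) :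
    (∑ y ∈ Finset.univ.erase x, (thr A x y).card) * n < (v - 1) * (v - 3) := by
  classical
  obtain ⟨s, hs1, hs⟩ := card_Zx (by omega) hA h
  obtain ⟨j, hj⟩ := Nat.exists_eq_add_of_le hv
  have hj3 : j ≤ 3 := by omega
  have hvj : v = n * (n ^ 2 + n + 1) + j := by rw [hj]; ring
  have hsub : Zx n A x ⊆ Finset.univ.erase x := fun q hq =>
    Finset.mem_erase.2 ⟨(mem_Zx.1 hq).1, Finset.mem_univ _⟩
  have hvx : (Finset.univ.erase x : Finset (Fin v)).card = v - 1 := by
    rw [Finset.card_erase_of_mem (Finset.mem_univ _), Finset.card_univ, Fintype.card_fin]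
  have hm1 : (Zx n A x).card ≤ v - 1 := by
    rw [← hvx]
    exact Finset.card_le_card hsub
  obtain ⟨m, hm⟩ : ∃ m, m = s * (n ^ 2 + n + 2) := ⟨_, rfl⟩
  have hmZ : (Zx n A x).card = m := by rw [hs, hm]
  rw [hmZ] at hm1
  have hnK : n * (n ^ 2 + n + 2) = n ^ 3 + n ^ 2 + 2 * n := by ring
  have h16 : n ^ 2 * 4 ≤ n ^ 3 := by
    calc n ^ 2 * 4 ≤ n ^ 2 * n := Nat.mul_le_mul_left _ hn
      _ = n ^ 3 := by ring
  have h2 : 4 * 4 ≤ n ^ 2 := by
    calc 4 * 4 ≤ n * n := Nat.mul_le_mul hn hn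
      _ = n ^ 2 := by ring
  have hsn : s < n := by
    by_contra hcon
    have h1 : n * (n ^ 2 + n + 2) ≤ s * (n ^ 2 + n + 2) := Nat.mul_le_mul_right _ (not_lt.1 hcon)
    rw [hnK, ← hm] at h1
    omega
  have hmlow : n ^ 2 + n + 2 ≤ m := by
    rw [hm]
    exact Nat.le_mul_of_pos_left _ hs1
  have hmup : m + (n ^ 2 + n + 2) ≤ n ^ 3 + n ^ 2 + 2 * n := by
    rw [← hnK, hm]
    calc s * (n ^ 2 + n + 2) + (n ^ 2 + n + 2) = (s + 1) * (n ^ 2 + n + 2) := by ring
      _ ≤ n * (n ^ 2 + n + 2) := Nat.mul_le_mul_right _ hsn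
  have hWc : ((Zx n A x)ᶜ).card = v - m := by
    rw [Finset.card_compl, Fintype.card_fin, hmZ]
  have hW3 : 3 ≤ ((Zx n A x)ᶜ).card := by
    rw [hWc]
    omega
  -- points of `Zx`
  have hin : ∀ y ∈ Zx n A x, (thr A x y).card ≤ n ^ 2 + n + 1 := by
    intro y hy
    have hyx := (mem_Zx.1 hy).1
    by_cases hS : Sun A x y
    · have h1 := sun_le hA (Ne.symm hyx) hS (W := Finset.univ)
        (by rw [Finset.card_univ, Fintype.card_fin]; omega) (Finset.subset_univ _)
      rw [Finset.card_univ, Fintype.card_fin] at h1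
      have h3 : (thr A x y).card * n ≤ (n ^ 2 + n + 1) * n := by
        have h4 : (n ^ 2 + n + 1) * n = n ^ 3 + n ^ 2 + n := by ring
        rw [h4]
        omega
      exact Nat.le_of_mul_le_mul_right h3 (by omega)
    · exact thr_le hA (Ne.symm hyx) hS
  -- points outside
  have hout : ∀ y, y ≠ x → y ∉ Zx n A x → Sun A x y → (thr A x y).card * n ≤ v - m - 3 := by
    intro y hyx hy hS
    have h1 := sun_le hA (Ne.symm hyx) hS hW3 (Yu_out hA hyx hy)
    rw [hWc] at h1
    exact h1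
  have hsum : ∀ c, (∀ y, y ≠ x → y ∉ Zx n A x → (thr A x y).card ≤ c) →
      ∑ y ∈ Finset.univ.erase x, (thr A x y).card ≤
        s * (n ^ 2 + n + 2) * (n ^ 2 + n + 1) + (v - 1 - s * (n ^ 2 + n + 2)) * c := by
    intro c hc
    rw [← Finset.sum_sdiff hsub, add_comm]
    apply Nat.add_le_add
    · calc ∑ y ∈ Zx n A x, (thr A x y).card ≤ ∑ _y ∈ Zx n A x, (n ^ 2 + n + 1) :=
            Finset.sum_le_sum hin
        _ = s * (n ^ 2 + n + 2) * (n ^ 2 + n + 1) := by
            rw [Finset.sum_const, smul_eq_mul, hs]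
    · have hcd := Finset.card_sdiff_add_card_eq_card hsub
      rw [hvx, hmZ] at hcd
      calc ∑ y ∈ Finset.univ.erase x \ Zx n A x, (thr A x y).card
          ≤ ∑ _y ∈ Finset.univ.erase x \ Zx n A x, c := by
            apply Finset.sum_le_sum
            intro y hy
            rw [Finset.mem_sdiff, Finset.mem_erase] at hy
            exact hc y hy.1.1 hy.2
        _ = (v - 1 - s * (n ^ 2 + n + 2)) * c := by
            rw [Finset.sum_const, smul_eq_mul, ← hm]
            congr 1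
            omega
  rcases Nat.lt_or_ge (s + 1) n with hc | hc
  · have h5 := hsum (n ^ 2 + n - 1) (by
      intro y hyx hy
      have hnb := not_bad_of_not_mem (n := n) (A := A) (x := x) (by omega) hy
      by_cases hS : Sun A x y
      · have h1 := hout y hyx hy hS
        by_contra hcon
        have h6 : (n ^ 2 + n) * n ≤ (thr A x y).card * n := Nat.mul_le_mul_right _ (by omega)
        have h7 : (n ^ 2 + n) * n = n ^ 3 + n ^ 2 := by ring
        rw [h7] at h6
        omega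
      · by_contra hcon
        exact hnb ⟨Ne.symm hyx, hS, by omega⟩)
    exact lt_of_le_of_lt (Nat.mul_le_mul_right n h5) (arith1 hn hj3 hvj (by omega))
  · have hsn1 : s + 1 = n := by omega
    have hmeq : m + (n ^ 2 + n + 2) = n ^ 3 + n ^ 2 + 2 * n := by
      rw [← hnK, hm]
      calc s * (n ^ 2 + n + 2) + (n ^ 2 + n + 2) = (s + 1) * (n ^ 2 + n + 2) := by ring
        _ = n * (n ^ 2 + n + 2) := by rw [hsn1]
    have h5 := hsum (n ^ 2) (by
      intro y hyx hy
      by_contra hcon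
      by_cases hS : Sun A x y
      · have h1 := hout y hyx hy hS
        have h6 : (n ^ 2 + 1) * n ≤ (thr A x y).card * n := Nat.mul_le_mul_right _ (by omega)
        have h7 : (n ^ 2 + 1) * n = n ^ 3 + n := by ring
        rw [h7] at h6
        omega
      · have h6 := card_Yu_eq hA (Ne.symm hyx) hS (by omega)
        have h7 := Finset.card_le_card (Yu_out hA hyx hy)
        rw [h6, hWc] at h7
        omega)
    exact lt_of_le_of_lt (Nat.mul_le_mul_right n h5) (arith2 hn hj3 hvj hsn1)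

end MP44257e
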