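import Pool.Agent.H.MP_44257e_co.UB.P2

/-!
# The sum of the degrees of the pairs at a point (k = n + 3, M = n ^ 2 + n + 1)

`point_bad`: let `m = (Zx n A x).card = s * (M + 1)`, `1 ≤ s` (`card_Zx`); `x ∉ Zx`, so
`m ≤ v - 1` and `s ≤ n - 1`. Points `y ∈ Zx`: degree at most `M` (`thr_le`; if `Sun`: `sun_le`
with `W = univ` gives `degree * n ≤ v - 3 ≤ n * M`). Points `y ∉ Zx`, `y ≠ x`: not bad
(`not_bad_of_not_mem`); if not `Sun`, then the degree is at most `n ^ 2 + n - 1 = M - 2`, and if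
moreover `v - m < n ^ 2 + n + 3` it is at most `n ^ 2` (else `card_Yu_eq` and `Yu_out`
contradict); if `Sun`, `sun_le` with `W = (Zx n A x)ᶜ` gives `degree * n ≤ v - m - 3`.
So `∑ ≤ m * M + (v - 1 - m) * (M - 2)`, and for `s = n - 1` (then `v - m ≤ n ^ 2 + 5`) even
`∑ ≤ m * M + (v - 1 - m) * n ^ 2`. With `v = n * M + j`, `j ≤ 3`, `n ≥ 4`, this gives the strict
inequality: s ≤ n - 2: `(M-2)(v-1) + 2(n-2)(M+1) < (v-1)(v-3)/n`;
s = n - 1: `(n-1)(M+1)M + (n^2+1+j) n^2 < (v-1)(v-3)/n`.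

`point_sum`: if every `y ≠ x` has `degree * n ≤ v - 3`, strictly if not `Sun`, sum up. This is so
if there is no bad `y` (not `Sun` gives degree `≤ n ^ 2 + n - 1`), and if
`n ^ 3 + n ^ 2 + n + 3 < v` (`thr_le`). Else `point_bad`.
-/

set_option autoImplicit false

namespace MP44257e

variable {v n : ℕ} {A : Finset (Finset (Fin v))} {x : Fin v}

/-- the summation over the points different from `x` -/
private theorem P3_sum (h : ∀ y, y ≠ x → (thr A x y).card * n ≤ v - 3 ∧
      (¬ Sun A x y → (thr A x y).card * n < v - 3)) :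
    (∑ y ∈ Finset.univ.erase x, (thr A x y).card) * n ≤ (v - 1) * (v - 3) ∧
    ((∑ y ∈ Finset.univ.erase x, (thr A x y).card) * n = (v - 1) * (v - 3) →
      ∀ y, y ≠ x → Sun A x y ∧ (thr A x y).card * n = v - 3) := by
  have hc : (Finset.univ.erase x).card = v - 1 := by
    rw [Finset.card_erase_of_mem (Finset.mem_univ x), Finset.card_univ, Fintype.card_fin]
  have hs : ∑ y ∈ Finset.univ.erase x, (v - 3) = (v - 1) * (v - 3) := by
    rw [Finset.sum_const, hc, smul_eq_mul]
  have hle : ∀ y ∈ Finset.univ.erase x, (thr A x y).card * n ≤ v - 3 := fun y hy =>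
    (h y (Finset.ne_of_mem_erase hy)).1
  rw [Finset.sum_mul, ← hs]
  refine ⟨Finset.sum_le_sum hle, ?_⟩
  intro he y hy
  have h1 := (Finset.sum_eq_sum_iff_of_le hle).1 he y
    (Finset.mem_erase.2 ⟨hy, Finset.mem_univ y⟩)
  refine ⟨?_, h1⟩
  by_contra hn
  exact absurd h1 ((h y hy).2 hn).ne

theorem point_sum (hn : 4 ≤ n) (hA : IsFam [0, 1, 3] (n + 3) A)
    (hv : n ^ 3 + n ^ 2 + n ≤ v) :
    (∑ y ∈ Finset.univ.erase x, (thr A x y).card) * n ≤ (v - 1) * (v - 3) ∧
    ((∑ y ∈ Finset.univ.erase x, (thr A x y).card) * n = (v - 1) * (v - 3) →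
      ∀ y, y ≠ x → Sun A x y ∧ (thr A x y).card * n = v - 3) := by
  have hsun : ∀ y, y ≠ x → Sun A x y → (thr A x y).card * n ≤ v - 3 := by
    intro y hy hs
    have h1 := sun_le hA hy.symm hs (W := Finset.univ)
      (by rw [Finset.card_univ, Fintype.card_fin]; omega) (Finset.subset_univ _)
    rwa [Finset.card_univ, Fintype.card_fin] at h1
  by_cases hv' : v ≤ n ^ 3 + n ^ 2 + n + 3
  · by_cases hb : ∃ y, Bad n A x y
    · have h1 := point_bad hn hA hv hv' hb
      exact ⟨h1.le, fun he => absurd he h1.ne⟩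
    · refine P3_sum fun y hy => ?_
      have hlt : ¬ Sun A x y → (thr A x y).card * n < v - 3 := by
        intro hs
        have h2 : (thr A x y).card + 1 ≤ n ^ 2 + n := by
          by_contra h3
          exact hb ⟨y, hy.symm, hs, by omega⟩
        have h3 : ((thr A x y).card + 1) * n ≤ (n ^ 2 + n) * n := Nat.mul_le_mul_right n h2
        have h4 : ((thr A x y).card + 1) * n = (thr A x y).card * n + n := by ring
        have h5 : (n ^ 2 + n) * n = n ^ 3 + n ^ 2 := by ring
        omega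
      by_cases hs : Sun A x y
      · exact ⟨hsun y hy hs, fun h => absurd hs h⟩
      · exact ⟨(hlt hs).le, hlt⟩
  · refine P3_sum fun y hy => ?_
    have hlt : ¬ Sun A x y → (thr A x y).card * n < v - 3 := by
      intro hs
      have h3 : (thr A x y).card * n ≤ (n ^ 2 + n + 1) * n :=
        Nat.mul_le_mul_right n (thr_le hA hy.symm hs)
      have h5 : (n ^ 2 + n + 1) * n = n ^ 3 + n ^ 2 + n := by ring
      omega
    by_cases hs : Sun A x y
    · exact ⟨hsun y hy hs, fun h => absurd hs h⟩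
    · exact ⟨(hlt hs).le, hlt⟩

end MP44257e
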