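import Pool.Agent.H.MP_44257e_co.UB.B3

/-!
# The structure of a non-sunflower pair of large degree (k = n + 3)

`card_Yu_eq`: let `w` be full (`exists_full`): `n + 1` members `X_i` through `x, y, w`; pairwise
they meet in `{x, y, w}` exactly. Their union has `3 + (n + 1) * n` points. It is all of
`Yu A x y`: let `X' ∈ thr A x y` with `w ∉ X'`; it meets each `X_i` in exactly one point of
`X' \ {x, y}`, these points are different (`no_four`), and `X' \ {x, y}` has `n + 1` points, so
`X'` is in the union of the `X_i`.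

`closed`: put `D q = (thr3 A x y q).card`. By `sum_thr3`, `thr3_le` (all `D q ≤ n + 1`) and
`n ^ 2 + n ≤ (thr A x y).card`, for every `X ∈ thr A x y` the sum of `n + 1 - D q` over
`q ∈ X \ {x, y}` is at most 1. Let `B` be as stated, `U = Yu A x y \ {x, y}`. Every
`X ∈ thr A x y` is different from `B` (`y ∉ B`) and contains `x`, so it meets `B \ {x}` in `0` or
`2` points. For `q ∈ B ∩ U`: each of the `D q` members `X ∈ thr3 A x y q` contains another point
of `B ∩ U`, different ones for different `X` (`no_four` with `x, y, q`, the point); so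
`D q + 1 ≤ (B ∩ U).card`. Take `X ∈ thr3 A x y p`, it contains another `p' ∈ B ∩ U`; one of
`D p`, `D p'` is `n + 1` (their deficiencies add up to at most 1). So `n + 2 ≤ (B ∩ U).card`, and
`B \ {x}` has `n + 2` points: `B ⊆ {x} ∪ U`.
-/

set_option autoImplicit false

namespace MP44257e

variable {v n : ℕ} {A : Finset (Finset (Fin v))} {x y : Fin v}

theorem card_Yu_eq (hA : IsFam [0, 1, 3] (n + 3) A) (hxy : x ≠ y) (h : ¬ Sun A x y)
    (hl : n ^ 2 + 1 ≤ (thr A x y).card) : (Yu A x y).card = n ^ 2 + n + 3 := by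
  classical
  obtain ⟨X, hX⟩ : (thr A x y).Nonempty := Finset.card_pos.mp (by omega)
  obtain ⟨w, hw, hF⟩ := exists_full hA hxy h hX hl
  rw [Finset.mem_erase, Finset.mem_erase] at hw
  obtain ⟨hwy, hwx, -⟩ := hw
  obtain ⟨T, hT⟩ : ∃ T : Finset (Fin v), T = {x, y, w} := ⟨_, rfl⟩
  have hTc : T.card = 3 := Finset.card_eq_three.mpr ⟨x, y, w, hxy, hwx.symm, hwy.symm, hT⟩
  have hTm : ∀ a, a ∈ T ↔ a = x ∨ a = y ∨ a = w := by
    intro a
    rw [hT, Finset.mem_insert, Finset.mem_insert, Finset.mem_singleton]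
  obtain ⟨F, hFdef⟩ : ∃ F, F = thr3 A x y w := ⟨_, rfl⟩
  rw [← hFdef] at hF
  have hFm : ∀ Z ∈ F, Z ∈ A ∧ x ∈ Z ∧ y ∈ Z ∧ w ∈ Z := fun Z hZ => by
    rw [hFdef] at hZ
    exact mem_thr3.mp hZ
  have hTZ : ∀ Z ∈ F, T ⊆ Z := by
    intro Z hZ a ha
    obtain ⟨h1, h2, h3, h4⟩ := hFm Z hZ
    rcases (hTm a).mp ha with rfl | rfl | rfl <;> assumption
  have hcard : ∀ Z ∈ F, (Z \ T).card = n := by
    intro Z hZ
    have h1 := Finset.card_sdiff_add_card_eq_card (hTZ Z hZ)
    rw [hA.1 Z (hFm Z hZ).1, hTc] at h1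
    omega
  have hdisj : ∀ Z ∈ F, ∀ Z' ∈ F, Z ≠ Z' → Disjoint (Z \ T) (Z' \ T) := by
    intro Z hZ Z' hZ' hne
    rw [Finset.disjoint_left]
    intro p hp hp'
    rw [Finset.mem_sdiff] at hp hp'
    apply hne
    refine no_four hA (hFm Z hZ).1 (hFm Z' hZ').1 (S := insert p T) ?_ ?_ ?_
    · rw [Finset.card_insert_of_notMem hp.2, hTc]
    · exact Finset.insert_subset hp.1 (hTZ Z hZ)
    · exact Finset.insert_subset hp'.1 (hTZ Z' hZ')
  have hUc : (F.biUnion fun Z => Z \ T).card = (n + 1) * n := by
    rw [Finset.card_biUnion hdisj, Finset.sum_congr rfl hcard, Finset.sum_const, hF,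
      smul_eq_mul]
  have hYu : Yu A x y = T ∪ F.biUnion fun Z => Z \ T := by
    apply Finset.Subset.antisymm
    · intro p hp
      obtain ⟨X', hX', h1, h2, h3⟩ := mem_Yu.mp hp
      by_cases hpT : p ∈ T
      · exact Finset.mem_union_left _ hpT
      · refine Finset.mem_union_right _ ?_
        rw [Finset.mem_biUnion]
        by_cases hwX' : w ∈ X'
        · exact ⟨X', by rw [hFdef]; exact mem_thr3.mpr ⟨hX', h1, h2, hwX'⟩,
            Finset.mem_sdiff.mpr ⟨h3, hpT⟩⟩
        · have hne : ∀ Z ∈ F, Z ≠ X' := by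
            intro Z hZ he
            apply hwX'
            rw [← he]
            exact (hFm Z hZ).2.2.2
          obtain ⟨Q, hQ⟩ : ∃ Q : Finset (Fin v), Q = {x, y} := ⟨_, rfl⟩
          have hQc : Q.card = 2 := by
            rw [hQ]
            exact Finset.card_pair hxy
          have hQm : ∀ a, a ∈ Q ↔ a = x ∨ a = y := by
            intro a
            rw [hQ, Finset.mem_insert, Finset.mem_singleton]
          have hc1 : ∀ Z ∈ F, ((Z ∩ X') \ Q).card = 1 := by
            intro Z hZ
            have hsub : Q ⊆ Z ∩ X' := by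
              intro a ha
              rw [Finset.mem_inter]
              rcases (hQm a).mp ha with rfl | rfl
              · exact ⟨(hFm Z hZ).2.1, h1⟩
              · exact ⟨(hFm Z hZ).2.2.1, h2⟩
            have h4 := Finset.card_sdiff_add_card_eq_card hsub
            rw [inter_three hA (hFm Z hZ).1 hX' (hne Z hZ) hxy (hFm Z hZ).2.1
              (hFm Z hZ).2.2.1 h1 h2, hQc] at h4
            omega
          have hd1 : ∀ Z ∈ F, ∀ Z' ∈ F, Z ≠ Z' →
              Disjoint ((Z ∩ X') \ Q) ((Z' ∩ X') \ Q) := by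
            intro Z hZ Z' hZ' hne'
            rw [Finset.disjoint_left]
            intro q hq hq'
            rw [Finset.mem_sdiff, Finset.mem_inter] at hq hq'
            have hqT : q ∉ T := by
              intro hqT
              rcases (hTm q).mp hqT with h4 | h4 | h4
              · exact hq.2 ((hQm q).mpr (Or.inl h4))
              · exact hq.2 ((hQm q).mpr (Or.inr h4))
              · apply hwX'
                rw [← h4]
                exact hq.1.2
            exact Finset.disjoint_left.mp (hdisj Z hZ Z' hZ' hne')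
              (Finset.mem_sdiff.mpr ⟨hq.1.1, hqT⟩) (Finset.mem_sdiff.mpr ⟨hq'.1.1, hqT⟩)
          have hG : (F.biUnion fun Z => (Z ∩ X') \ Q) = X' \ Q := by
            apply Finset.eq_of_subset_of_card_le
            · intro q hq
              rw [Finset.mem_biUnion] at hq
              obtain ⟨Z, hZ, hq⟩ := hq
              rw [Finset.mem_sdiff, Finset.mem_inter] at hq
              exact Finset.mem_sdiff.mpr ⟨hq.1.2, hq.2⟩
            · rw [Finset.card_biUnion hd1, Finset.sum_congr rfl hc1, Finset.sum_const, hF,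
                smul_eq_mul, mul_one]
              have hsub : Q ⊆ X' := by
                intro a ha
                rcases (hQm a).mp ha with rfl | rfl
                · exact h1
                · exact h2
              have h4 := Finset.card_sdiff_add_card_eq_card hsub
              rw [hA.1 X' hX', hQc] at h4
              omega
          have hpG : p ∈ F.biUnion fun Z => (Z ∩ X') \ Q := by
            rw [hG, Finset.mem_sdiff]
            refine ⟨h3, fun hpQ => hpT ?_⟩
            rcases (hQm p).mp hpQ with h4 | h4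
            · exact (hTm p).mpr (Or.inl h4)
            · exact (hTm p).mpr (Or.inr (Or.inl h4))
          rw [Finset.mem_biUnion] at hpG
          obtain ⟨Z, hZ, hq⟩ := hpG
          rw [Finset.mem_sdiff, Finset.mem_inter] at hq
          exact ⟨Z, hZ, Finset.mem_sdiff.mpr ⟨hq.1.1, hpT⟩⟩
    · have hall : ∀ Z ∈ F, Z ⊆ Yu A x y := by
        intro Z hZ p hp
        exact mem_Yu.mpr ⟨Z, (hFm Z hZ).1, (hFm Z hZ).2.1, (hFm Z hZ).2.2.1, hp⟩
      obtain ⟨Z₀, hZ₀⟩ : F.Nonempty := Finset.card_pos.mp (by omega)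
      refine Finset.union_subset ((hTZ Z₀ hZ₀).trans (hall Z₀ hZ₀)) ?_
      intro p hp
      rw [Finset.mem_biUnion] at hp
      obtain ⟨Z, hZ, hp⟩ := hp
      exact hall Z hZ (Finset.mem_sdiff.mp hp).1
  have hTd : Disjoint T (F.biUnion fun Z => Z \ T) := by
    rw [Finset.disjoint_left]
    intro p hp hp'
    rw [Finset.mem_biUnion] at hp'
    obtain ⟨Z, -, hp'⟩ := hp'
    exact (Finset.mem_sdiff.mp hp').2 hp
  rw [hYu, Finset.card_union_of_disjoint hTd, hTc, hUc]
  ring

end MP44257e
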